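import Pool.Agent.TH769.LH.Mrk
import Pool.Agent.TH769.ZA.Cst

set_option autoImplicit false

/-!
The classes, and the construction.
-/

namespace Pool.Agent.TH769.LH

open Encodable Pool.Agent.Helper227 Pool.Agent.H548R2.Post
open Nat.Partrec (Code)
open Pool.Agent.TH769.CD (jp jp_congr bdd_lt)
open Pool.Agent.TH769.ZA (val val_congr val_eq val_le)
open Pool.Agent.TH769.TL (Ok Chg IsSt Cand Act Step VZ Cls Sys inv_good inv_bad no_chg)

abbrev R : Type := ℕ → Bool

theorem val_down {X Y : R} {m n : ℕ} (h : m ≤ n) (h1 : val X n ≤ val Y n) :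
    val X m ≤ val Y m := by
  induction n, h using Nat.le_induction with
  | base => exact h1
  | succ n _ ih => exact ih (val_le h1)

theorem val_lt (X : R) (m : ℕ) : val X m < 2 ^ m := by
  induction m with
  | zero => simp [val]
  | succ m ih =>
    unfold val
    rw [pow_succ]
    split_ifs <;> omega

/-- the code of the initial segment of length `m` -/
def vr (m : ℕ) (z : R) : ℕ := val z m

/-- the iterates of `f` -/
def mr (f : R → R) (i : ℕ) (z : R) : R := f^[i] z

theorem dyn (f : R → R) : Dyn vr (mr f) where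
  mm i j p := (Function.iterate_add_apply f i j p).symm
  down m n p q h := val_down h
  bd m := ⟨2 ^ m, fun p => (val_lt p m).le⟩
  ext p q h := by
    funext i
    exact val_eq (h (i + 1)) i (Nat.lt_succ_self i)

/-- `j 0, …, j (r - 1)` are sections of `f`, and their ranges cover the space -/
structure Sec (f : R → R) (j : ℕ → R → R) (r : ℕ) : Prop where
  pos : 0 < r
  sec : ∀ c < r, ∀ z, f (j c z) = z
  cov : ∀ z, ∃ c < r, z = j c (f z)

/-- apply the sections given by the `l` digits of `w` in base `r` -/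
def cat (j : ℕ → R → R) (r : ℕ) : ℕ → ℕ → R → R
  | 0, _, z => z
  | l + 1, w, z => j (w % r) (cat j r l (w / r) z)

section

variable {f : R → R} {j : ℕ → R → R} {r : ℕ}

theorem f_cat (h : Sec f j r) (l w : ℕ) (z : R) : f (cat j r (l + 1) w z) = cat j r l (w / r) z :=
  h.sec _ (Nat.mod_lt _ h.pos) _

theorem mr_cat (h : Sec f j r) (l w : ℕ) (z : R) : mr f l (cat j r l w z) = z := by
  induction l generalizing w with
  | zero => rfl
  | succ l ih =>
    unfold mr
    rw [Function.iterate_succ_apply, f_cat h]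
    exact ih _

theorem cat_le (h : Sec f j r) {i l : ℕ} (hi : i ≤ l) (w : ℕ) (z : R) :
    mr f i (cat j r l w z) = cat j r (l - i) (w / r ^ i) z := by
  induction i generalizing l w with
  | zero => simp [mr]
  | succ i ih =>
    obtain ⟨l', rfl⟩ : ∃ l', l = l' + 1 := ⟨l - 1, by omega⟩
    unfold mr
    rw [Function.iterate_succ_apply, f_cat h]
    have h1 := ih (l := l') (by omega) (w / r)
    unfold mr at h1
    rw [h1, Nat.div_div_eq_div_mul, ← pow_succ', show l' + 1 - (i + 1) = l' - i by omega]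

theorem cat_gt (h : Sec f j r) {i l : ℕ} (hi : l ≤ i) (w : ℕ) (z : R) :
    mr f i (cat j r l w z) = mr f (i - l) z := by
  have h1 := (dyn f).mm (i - l) l (cat j r l w z)
  rw [mr_cat h, show i - l + l = i by omega] at h1
  exact h1.symm

theorem exists_cat (h : Sec f j r) (l : ℕ) (q : R) : ∃ w < r ^ l, cat j r l w (mr f l q) = q := by
  induction l generalizing q with
  | zero => exact ⟨0, by simp, rfl⟩
  | succ l ih =>
    obtain ⟨c, hc, hq⟩ := h.cov q
    obtain ⟨w, hw, hq'⟩ := ih (f q)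
    refine ⟨c + r * w, ?_, ?_⟩
    · have h1 : r * (w + 1) ≤ r * r ^ l := Nat.mul_le_mul le_rfl hw
      rw [pow_succ']
      rw [Nat.mul_add, Nat.mul_one] at h1
      omega
    · have e1 : (c + r * w) % r = c := by
        rw [Nat.add_mul_mod_self_left, Nat.mod_eq_of_lt hc]
      have e2 : (c + r * w) / r = w := by
        rw [Nat.add_mul_div_left _ _ h.pos, Nat.div_eq_of_lt hc, Nat.zero_add]
      unfold cat
      rw [e1, e2]
      unfold mr at hq' ⊢
      rw [Function.iterate_succ_apply, hq']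
      exact hq.symm

theorem cat_add (l l' w w' : ℕ) (z : R) (hw : w < r ^ l) (hr : 0 < r) :
    cat j r (l + l') (w + r ^ l * w') z = cat j r l w (cat j r l' w' z) := by
  induction l generalizing w with
  | zero =>
    have : w = 0 := by simpa using hw
    subst this
    simp [cat]
  | succ l ih =>
    rw [show l + 1 + l' = (l + l') + 1 by omega]
    have e1 : (w + r ^ (l + 1) * w') % r = w % r := by
      rw [pow_succ', mul_assoc, Nat.add_mul_mod_self_left]
    have e2 : (w + r ^ (l + 1) * w') / r = w / r + r ^ l * w' := by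
      rw [pow_succ', mul_assoc, Nat.add_mul_div_left _ _ hr]
    rw [cat, cat, e1, e2, ih]
    rw [Nat.div_lt_iff_lt_mul hr]
    rwa [pow_succ] at hw

/-- `z` and `z'` have the same representative -/
def QQ (f : R → R) (m s : ℕ) (z z' : R) : Prop :=
  mr f (gg vr (mr f) m s z) z = mr f (gg vr (mr f) m s z') z'

/-- the distance to the representative changes at stage `s` -/
def DC (f : R → R) (m s : ℕ) (z : R) : Prop := gg vr (mr f) m (s - 1) z ≠ gg vr (mr f) m s z

theorem fin_mr (h : Sec f j r) (c : ℕ) (w : R) : {z | mr f c z = w}.Finite := by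
  refine ((Finset.finite_toSet (Finset.range (r ^ c))).image fun x => cat j r c x w).subset ?_
  intro z hz
  obtain ⟨x, hx, he⟩ := exists_cat h c z
  have hz' : mr f c z = w := hz
  rw [hz'] at he
  exact ⟨x, by simpa using hx, he⟩

theorem cls_QQ (h : Sec f j r) : Cls (QQ f) (DC f) where
  refl _ _ _ := rfl
  symm _ _ _ _ h := h.symm
  trans _ _ _ _ _ h h' := h.trans h'
  stab m s p q hp hq := by
    unfold DC at hp hq
    push Not at hp hq
    unfold QQ
    rw [hp, hq]
  lim m p := by
    classical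
    obtain ⟨s0, h0⟩ := gg_lim (dyn f) m p
    let F : Set R := ⋃ c ∈ Finset.range ((m + 1) * m + 1), {z | mr f c z = mr f (TG (dyn f) m p) p}
    have hF : F.Finite := Set.Finite.biUnion (Finset.finite_toSet _) fun c _ => fin_mr h c _
    have hF' : ∀ z, z ∈ F ↔ ∃ c < (m + 1) * m + 1, mr f c z = mr f (TG (dyn f) m p) p := by
      intro z
      simp [F]
    choose g hg using fun z : R => gg_lim (dyn f) m z
    obtain ⟨b, hb⟩ := (hF.image g).bddAbove
    refine ⟨{z | z ∈ F ∧ mr f (TG (dyn f) m z) z = mr f (TG (dyn f) m p) p},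
      hF.subset fun z hz => hz.1, max s0 b + 1, fun s hs z => ⟨?_, ?_⟩⟩
    · unfold QQ
      rw [h0 s (by omega)]
      constructor
      · intro h
        have hz : z ∈ F := (hF' z).2 ⟨gg vr (mr f) m s z, by
          have := gg_le vr (mr f) m s z; omega, h.symm⟩
        have h1 := hb ⟨z, hz, rfl⟩
        refine ⟨hz, ?_⟩
        rw [h, hg z s (by omega)]
      · rintro ⟨hz, h⟩
        have h1 := hb ⟨z, hz, rfl⟩
        rw [hg z s (by omega), h]
    · rintro ⟨hz, -⟩ hD
      have h1 := hb ⟨z, hz, rfl⟩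
      exact hD (by rw [hg z s (by omega), hg z (s - 1) (by omega)])

theorem qq_of {m s : ℕ} {z : R} (h : gg vr (mr f) m s z = gg vr (mr f) m s (f z) + 1) :
    QQ f m s z (f z) := by
  unfold QQ
  rw [h]
  exact Function.iterate_succ_apply f _ z

end

/-- `z` is enumerated into the `n`-th set by stage `s` from the oracle `p` -/
def EY (s n z : ℕ) (p : R) : Prop := En s n z p

/-- the `e`-th program halts on `e` within `s` steps with use `u` -/
def CY (s e u : ℕ) (p : R) (v : ℕ → Prop) : Prop := hlt s e e (pre (jp p v) u) = true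

/-- the history of the construction before stage `s` -/
def Hs (f : R → R) : ℕ → ℕ → R → ℕ → Prop
  | 0 => fun _ _ _ => False
  | s + 1 => fun s' p z => Hs f s s' p z ∨
      (s' = s ∧ Step EY CY (QQ f) (DC f) (VZ (Hs f s)) s p z)

/-- `z` is put into the set of `p` at stage `s` -/
def AA (f : R → R) (s : ℕ) (p : R) (z : ℕ) : Prop := Step EY CY (QQ f) (DC f) (VZ (Hs f s)) s p z

section

variable {f : R → R} {j : ℕ → R → R} {r : ℕ}

theorem Hs_iff {s s' : ℕ} {p : R} {z : ℕ} : Hs f s s' p z ↔ s' < s ∧ AA f s' p z := by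
  induction s with
  | zero => simp [Hs]
  | succ s ih =>
    show (Hs f s s' p z ∨ (s' = s ∧ Step EY CY (QQ f) (DC f) (VZ (Hs f s)) s p z)) ↔ _
    rw [ih]
    constructor
    · rintro (h | ⟨h1, h2⟩)
      · exact ⟨by omega, h.2⟩
      · subst h1
        exact ⟨Nat.lt_succ_self _, h2⟩
    · rintro ⟨h1, h2⟩
      rcases Nat.lt_succ_iff_lt_or_eq.1 h1 with h | h
      · exact Or.inl ⟨h, h2⟩
      · subst h
        exact Or.inr ⟨rfl, h2⟩

theorem step_V {V V' : ℕ → R → ℕ → Prop} {s : ℕ} {p : R} {z : ℕ}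
    (h : ∀ p y, (V s p y ↔ V' s p y)) :
    Step EY CY (QQ f) (DC f) V s p z ↔ Step EY CY (QQ f) (DC f) V' s p z := by
  have : V s = V' s := by
    funext p y
    exact propext (h p y)
  unfold Step Act Cand
  rw [this]

theorem AA_eq (s : ℕ) (p : R) (z : ℕ) :
    AA f s p z ↔ Step EY CY (QQ f) (DC f) (VZ (AA f)) s p z := by
  refine step_V fun p y => exists_congr fun s' => and_congr_right fun hs' => ?_
  rw [Hs_iff]
  exact ⟨fun h => h.2, fun h => ⟨hs', h⟩⟩

theorem CY_congr {X X' : R} {s e u : ℕ} {v v' : ℕ → Prop}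
    (h1 : ∀ i < u, X i = X' i) (h2 : ∀ y < u, (v y ↔ v' y)) : CY s e u X v ↔ CY s e u X' v' := by
  unfold CY
  rw [T03_pre (jp_congr h1 h2) le_rfl]

theorem sys (h : Sec f j r) : Sys EY CY (QQ f) (DC f) (AA f) where
  cls := cls_QQ h
  hA := AA_eq
  monoE s s' n z p h hE := En_mono h hE
  locC s s' e u p v v' hC hs hv := by
    have h1 := (CY_congr (X := p) (X' := p) (s := s) (e := e) (fun _ _ => rfl) hv).1 hC
    exact hlt_mono hs h1

/-- the set of `p` -/
def VT (f : R → R) (p : R) (z : ℕ) : Prop := ∃ s, AA f s p z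

theorem good_iff (h : Sec f j r) {p : R} {m u z : ℕ} (hz : z.unpair.1 = Nat.pair m u)
    (hg : gg vr (mr f) m u p = gg vr (mr f) m u (f p) + 1) : VT f p z ↔ VT f (f p) z :=
  ⟨fun ⟨s, h1⟩ => ⟨s, inv_good (sys h) hz (qq_of hg) s h1⟩,
    fun ⟨s, h1⟩ => ⟨s, inv_good (sys h) hz (qq_of hg).symm s h1⟩⟩

theorem bad_chg (h : Sec f j r) {p : R} {m u : ℕ}
    (H : ∃ s0, ∀ s ≥ s0, gg vr (mr f) m s p = gg vr (mr f) m s (f p) + 1)
    (hg : ¬ gg vr (mr f) m u p = gg vr (mr f) m u (f p) + 1) :
    (∃ s, u < s ∧ Chg (QQ f) (DC f) m s p) ∧ ∃ s, u < s ∧ Chg (QQ f) (DC f) m s (f p) := by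
  obtain ⟨s0, h0⟩ := H
  have key : (∀ s, u < s → ¬ DC f m s p) → (∀ s, u < s → ¬ DC f m s (f p)) → False := by
    intro h1 h2
    have e : ∀ r, (∀ s, u < s → ¬ DC f m s r) →
        ∀ s ≥ u, gg vr (mr f) m s r = gg vr (mr f) m u r := by
      intro r hr s hs
      induction s, hs using Nat.le_induction with
      | base => rfl
      | succ s hs ih =>
        have := hr (s + 1) (by omega)
        unfold DC at this
        push Not at this
        rw [Nat.add_sub_cancel] at this
        rw [← this]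
        exact ih
    refine hg ?_
    rw [← e p h1 (max s0 u) (by omega), ← e _ h2 (max s0 u) (by omega)]
    exact h0 _ (by omega)
  constructor
  · by_contra hc
    push Not at hc
    exact key (no_chg (sys h) hc ⟨0, fun _ _ => rfl⟩).2
      (no_chg (sys h) hc ⟨s0, fun s hs => qq_of (h0 s hs)⟩).2
  · by_contra hc
    push Not at hc
    exact key (no_chg (sys h) hc ⟨s0, fun s hs => (qq_of (h0 s hs)).symm⟩).2
      (no_chg (sys h) hc ⟨0, fun _ _ => rfl⟩).2

theorem bad_iff (h : Sec f j r) {p : R} {m u s z : ℕ} (hz : z.unpair.1 = Nat.pair m u)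
    (hs : u < s) (hc : Chg (QQ f) (DC f) m s p) : VT f p z ↔ VZ (AA f) s p z :=
  ⟨fun ⟨t, h1⟩ => ⟨t, inv_bad (sys h) hz hs hc t h1, h1⟩, fun ⟨t, _, h1⟩ => ⟨t, h1⟩⟩

end

end Pool.Agent.TH769.LH
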