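import Pool.Agent.TH769.LH.Inv
import Pool.Agent.TH769.TP.Cod

set_option autoImplicit false

/-!
The theorem for a map with finitely many sections, and for the tail equivalence.
-/

namespace Pool.Agent.TH769.LH

open Encodable Pool.Agent.Helper227 Pool.Agent.H548R2.Post
open Nat.Partrec (Code)
open Pool.Agent.TH769.ZA (Apx)
open Pool.Agent.TH769.TP (Via FF pf_FF lim_FF Lim)
open Pool.Agent.TH769.CD (pf_append pf_cons)

attribute [local fun_prop] Primrec
attribute [local fun_prop] Primrec.id Primrec.const Primrec.comp Primrec.pair Primrec.fst Primrec.snd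

theorem main_apx {f : R → R} {j : ℕ → R → R} {r : ℕ} {g : List Bool → List Bool}
    {h : ℕ → List Bool → List Bool} (hs : Sec f j r) (hg : Apx g f)
    (ha : ∀ c < r, Apx (h c) (j c)) (cg : Computable g) (hh : Computable₂ h) : ∃ e : ℕ,
    (∀ X : R, TLe X (chr (WE X e)) ∧ ¬ TLe (chr (WE X e)) X ∧
      TLe (chr (WE X e)) (jump X) ∧ ¬ TLe (jump X) (chr (WE X e)) ∧
      TLe (jump (chr (WE X e))) (jump X)) ∧
    ∀ X : R, TLe (chr (WE X e)) (chr (WE (f X) e)) ∧
      TLe (chr (WE (f X) e)) (chr (WE X e)) := by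
  obtain ⟨e, he⟩ := exists_index hs hg ha cg hh
  refine ⟨e, fun X => ?_, fun X => ?_⟩
  · rw [he X, chr_WX]
    have hl := low hs hg ha cg hh X
    exact ⟨le_WX X, not_WX_le hs X, WX_le_jump hs hg ha cg hh X,
      fun h => not_jump_le _ (TuringReducible.trans hl h), hl⟩
  · rw [he, he, chr_WX, chr_WX]
    exact WX_all hs hg ha cg hh X

theorem apx_FF {i : Code} {f : R → R} (h : ∀ X, Via i X (f X)) : Apx (FF i) f :=
  ⟨fun X => (lim_FF (h X)).ok, fun X => (lim_FF (h X)).long⟩

theorem fin_comp (k : ℕ → Code) (r : ℕ) : ∃ h : ℕ → List Bool → List Bool, Computable₂ h ∧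
    ∀ c < r, h c = FF (k c) := by
  induction r with
  | zero => exact ⟨fun _ σ => σ, Computable.snd, fun c hc => absurd hc (Nat.not_lt_zero c)⟩
  | succ r ih =>
    obtain ⟨h, h1, h2⟩ := ih
    refine ⟨fun c σ => cond (decide (c = r)) (FF (k r) σ) (h c σ), ?_, fun c hc => ?_⟩
    · have h3 : Primrec fun x : ℕ × List Bool => decide (x.1 = r) :=
        PrimrecPred.decide (Primrec.eq.comp Primrec.fst (Primrec.const r))
      exact Computable.cond h3.to_comp ((pf_FF (k r)).to_comp.comp Computable.snd) h1
    · funext σ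
      by_cases hr : c = r
      · subst hr
        simp
      · simp only [hr, decide_false, cond_false]
        rw [h2 c (by omega)]

/-- One total computable functional `f` with finitely many total computable sections whose ranges
cover the space. -/
theorem main_sections (r : ℕ) (f : R → R) (j : ℕ → R → R) (i : Code) (k : ℕ → Code)
    (hi : ∀ X, Via i X (f X)) (hk : ∀ c < r, ∀ X, Via (k c) X (j c X))
    (hsec : ∀ c < r, ∀ X, f (j c X) = X) (hcov : ∀ X, ∃ c < r, X = j c (f X)) : ∃ e : ℕ,
    (∀ X : R, TLe X (chr (WE X e)) ∧ ¬ TLe (chr (WE X e)) X ∧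
      TLe (chr (WE X e)) (jump X) ∧ ¬ TLe (jump X) (chr (WE X e)) ∧
      TLe (jump (chr (WE X e))) (jump X)) ∧
    ∀ X : R, TLe (chr (WE X e)) (chr (WE (f X) e)) ∧
      TLe (chr (WE (f X) e)) (chr (WE X e)) := by
  obtain ⟨h, h1, h2⟩ := fin_comp k r
  have hr : 0 < r := by
    obtain ⟨c, hc, -⟩ := hcov fun _ => false
    omega
  refine main_apx ⟨hr, hsec, hcov⟩ (apx_FF hi) (h := h) (fun c hc => ?_) (pf_FF i).to_comp h1
  rw [h2 c hc]
  exact apx_FF (hk c hc)

/-- the sequence `X` after the word `σ` -/
def app (σ : List Bool) (X : R) : R :=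
  fun n => if n < σ.length then σ.getD n false else X (n - σ.length)

/-- the shift -/
def shf (X : R) : R := fun n => X (n + 1)

theorem shf_app (b : Bool) (σ : List Bool) (X : R) : shf (app (b :: σ) X) = app σ X := by
  funext n
  unfold shf app
  simp only [List.length_cons, Nat.add_lt_add_iff_right, List.getD_cons_succ,
    Nat.add_sub_add_right]

theorem app_one (X : R) : app [X 0] (shf X) = X := by
  funext n
  unfold app shf
  rcases Nat.eq_zero_or_pos n with h | h
  · subst h
    simp
  · have h1 : ¬ n < 1 := by omega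
    simp only [List.length_cons, List.length_nil, Nat.zero_add, h1, if_false]
    rw [show n - 1 + 1 = n by omega]

theorem apx_shf : Apx (fun σ => σ.drop 1) shf where
  ok X L := by
    refine ⟨L - 1, ?_⟩
    refine List.ext_getElem (by simp [length_pre]) fun n h1 h2 => ?_
    simp [pre, shf, Nat.add_comm]
  long X N := ⟨N + 1, fun L hL => by simp only [List.length_drop, length_pre]; omega⟩

theorem apx_cons (b : Bool) : Apx (fun σ => b :: σ) (app [b]) where
  ok X L := by
    refine ⟨L + 1, ?_⟩
    refine List.ext_getElem (by simp [length_pre]) fun n h1 h2 => ?_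
    rcases Nat.eq_zero_or_pos n with h | h
    · subst h
      simp [pre, app]
    · obtain ⟨n', rfl⟩ : ∃ n', n = n' + 1 := ⟨n - 1, by omega⟩
      simp [pre, app]
  long X N := ⟨N, fun L hL => by simp only [List.length_cons, length_pre]; omega⟩

/-- The theorem for the tail equivalence. -/
theorem main_tail : ∃ e : ℕ,
    (∀ X : R, TLe X (chr (WE X e)) ∧ ¬ TLe (chr (WE X e)) X ∧
      TLe (chr (WE X e)) (jump X) ∧ ¬ TLe (jump X) (chr (WE X e)) ∧
      TLe (jump (chr (WE X e))) (jump X)) ∧
    ∀ (σ τ : List Bool) (X : R), TLe (chr (WE (app σ X) e)) (chr (WE (app τ X) e)) := by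
  have hs : Sec shf (fun c => app [decide (c = 1)]) 2 := by
    refine ⟨by omega, fun c _ z => shf_app _ _ _, fun z => ?_⟩
    cases h : z 0
    · refine ⟨0, by omega, ?_⟩
      have := app_one z
      rw [h] at this
      simpa using this.symm
    · refine ⟨1, by omega, ?_⟩
      have := app_one z
      rw [h] at this
      simpa using this.symm
  have cg : Computable fun σ : List Bool => σ.drop 1 :=
    (Primrec.list_drop.comp (Primrec.const 1) Primrec.id).to_comp
  have hh : Computable₂ fun (c : ℕ) (σ : List Bool) => decide (c = 1) :: σ := by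
    have h1 : Primrec fun x : ℕ × List Bool => decide (x.1 = 1) :=
      PrimrecPred.decide (Primrec.eq.comp Primrec.fst (Primrec.const 1))
    exact (pf_cons h1 Primrec.snd).to_comp
  obtain ⟨e, h1, h2⟩ := main_apx hs apx_shf (h := fun c σ => decide (c = 1) :: σ)
    (fun c _ => apx_cons _) cg hh
  refine ⟨e, h1, ?_⟩
  have h3 : ∀ (σ : List Bool) (X : R), TLe (chr (WE (app σ X) e)) (chr (WE X e)) ∧
      TLe (chr (WE X e)) (chr (WE (app σ X) e)) := by
    intro σ X
    induction σ with
    | nil =>
      have : app [] X = X := by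
        funext n
        simp [app]
      rw [this]
      exact ⟨TuringReducible.refl _, TuringReducible.refl _⟩
    | cons b σ ih =>
      have h4 := h2 (app (b :: σ) X)
      rw [shf_app] at h4
      exact ⟨TuringReducible.trans h4.1 ih.1, TuringReducible.trans ih.2 h4.2⟩
  exact fun σ τ X => TuringReducible.trans (h3 σ X).1 (h3 τ X).2

end Pool.Agent.TH769.LH
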