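import Pool.Agent.TH769.TL.Gr

set_option autoImplicit false

/-!
Markers on the forward orbits of a map.
-/

namespace Pool.Agent.TH769.LH

open Pool.Agent.TH769.CD (bdd_lt)
open Pool.Agent.TH769.TL (gr gr_le gr_congr gr_shift)

open Classical in
/-- the least number below `t` with the property `p`, or `t` -/
noncomputable def lst (p : ℕ → Prop) : ℕ → ℕ
  | 0 => 0
  | t + 1 => if lst p t < t then lst p t else if p t then t else t + 1

theorem lst_spec (p : ℕ → Prop) (t : ℕ) : lst p t ≤ t ∧ (∀ i < lst p t, ¬ p i) ∧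
    (lst p t < t → p (lst p t)) := by
  induction t with
  | zero => exact ⟨le_rfl, fun i hi => absurd hi (Nat.not_lt_zero i), fun h => absurd h (lt_irrefl _)⟩
  | succ t ih =>
    obtain ⟨h1, h2, h3⟩ := ih
    unfold lst
    split_ifs with g1 g2
    · exact ⟨by omega, h2, fun _ => h3 g1⟩
    · have : lst p t = t := by omega
      rw [this] at h2
      exact ⟨by omega, h2, fun _ => g2⟩
    · have : lst p t = t := by omega
      rw [this] at h2
      refine ⟨le_rfl, fun i hi => ?_, fun h => absurd h (lt_irrefl _)⟩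
      rcases Nat.lt_succ_iff_lt_or_eq.1 hi with h4 | h4
      · exact h2 i h4
      · subst h4
        exact g2

theorem lst_eq {p : ℕ → Prop} {i t : ℕ} (h : p i) (h1 : ∀ j < i, ¬ p j) (ht : i < t) :
    lst p t = i := by
  obtain ⟨g1, g2, g3⟩ := lst_spec p t
  rcases lt_trichotomy (lst p t) i with h2 | h2 | h2
  · exact absurd (g3 (by omega)) (h1 _ h2)
  · exact h2
  · exact absurd h (g2 i h2)

theorem lst_congr {p q : ℕ → Prop} {t : ℕ} (h : ∀ i < t, (p i ↔ q i)) : lst p t = lst q t := by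
  induction t with
  | zero => rfl
  | succ t ih =>
    unfold lst
    rw [ih fun i hi => h i (by omega)]
    have := h t (Nat.lt_succ_self t)
    by_cases hq : q t
    · have hp := this.2 hq
      split_ifs <;> rfl
    · have hp := mt this.1 hq
      split_ifs <;> rfl

section defs

variable {I : Type} (v : ℕ → I → ℕ) (mv : ℕ → I → I)

def BA (k s : ℕ) (p : I) : Prop := ∀ i < s + 1, v k p ≤ v k (mv i p)

def BR (k s : ℕ) (p : I) : Prop := ∃ i < s + 1, 0 < i ∧ v k (mv i p) = v k p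

def Bk (k s : ℕ) (p : I) : Prop := BA v mv k s p ∧ BR v mv k s p

def Kk (s : ℕ) (p : I) : Prop := ∀ i < s + 1, v s p ≤ v s (mv i p)

def Nx (k s : ℕ) (p : I) : Prop := ∃ i < s + 1, 0 < i ∧ Bk v mv k s (mv i p) ∧
  (∀ j < i, 0 < j → ¬ Bk v mv k s (mv j p)) ∧ Kk v mv s (mv i p)

/-- `p` looks like a marker of level `k` at stage `s` -/
def Mk (k s : ℕ) (p : I) : Prop := Bk v mv k s p ∧ (¬ Kk v mv s p ∨ Nx v mv k s p)

/-- the distance to the first marker of level `k`, as seen at stage `s` -/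
noncomputable def nn (k s : ℕ) (p : I) : ℕ := lst (fun i => Mk v mv k s (mv i p)) (s + 1)

/-- the distance to the representative, as seen at stage `s` -/
noncomputable def gg (k s : ℕ) (p : I) : ℕ := gr k (fun j => nn v mv j s p) (k + 1)

def TA (k : ℕ) (p : I) : Prop := ∀ i, v k p ≤ v k (mv i p)

def TR (k : ℕ) (p : I) : Prop := ∃ i, 0 < i ∧ v k (mv i p) = v k p

def TB (k : ℕ) (p : I) : Prop := TA v mv k p ∧ TR v mv k p

/-- `p` is least in its forward orbit -/
def TK (p : I) : Prop := ∀ k i, v k p ≤ v k (mv i p)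

def TN (k : ℕ) (p : I) : Prop := ∃ i, 0 < i ∧ TB v mv k (mv i p) ∧
  (∀ j < i, 0 < j → ¬ TB v mv k (mv j p)) ∧ TK v mv (mv i p)

/-- `p` is a marker of level `k` -/
def TM (k : ℕ) (p : I) : Prop := TB v mv k p ∧ (¬ TK v mv p ∨ TN v mv k p)

/-- `p` is periodic and least in its orbit -/
def Per (p : I) : Prop := TK v mv p ∧ ∃ n, 0 < n ∧ mv n p = p

theorem gg_le (k s : ℕ) (p : I) : gg v mv k s p ≤ (k + 1) * k := gr_le _ _ _

/-- the conditions on the map -/
structure Dyn : Prop where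
  mm : ∀ i j p, mv i (mv j p) = mv (i + j) p
  down : ∀ m n p q, m ≤ n → v n p ≤ v n q → v m p ≤ v m q
  bd : ∀ m, ∃ b, ∀ p, v m p ≤ b
  ext : ∀ p q, (∀ m, v m p = v m q) → p = q

end defs

section

variable {I : Type} {v : ℕ → I → ℕ} {mv : ℕ → I → I}

theorem b_lim (k : ℕ) (z : I) : ∃ s0, ∀ s ≥ s0, (Bk v mv k s z ↔ TB v mv k z) := by
  have h1 : ∃ s0, ∀ s ≥ s0, (BA v mv k s z ↔ TA v mv k z) := by
    by_cases h : TA v mv k z
    · exact ⟨0, fun s _ => ⟨fun _ => h, fun _ i _ => h i⟩⟩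
    · have h' := h
      unfold TA at h'
      push Not at h'
      obtain ⟨i, hi⟩ := h'
      refine ⟨i, fun s hs => ⟨fun h2 => ?_, fun h2 => absurd h2 h⟩⟩
      exact absurd (h2 i (by omega)) (by omega)
  have h2 : ∃ s0, ∀ s ≥ s0, (BR v mv k s z ↔ TR v mv k z) := by
    by_cases h : TR v mv k z
    · obtain ⟨i, hi, hv⟩ := h
      exact ⟨i, fun s hs => ⟨fun _ => ⟨i, hi, hv⟩, fun _ => ⟨i, by omega, hi, hv⟩⟩⟩
    · refine ⟨0, fun s _ => ⟨fun ⟨i, _, hi, hv⟩ => ⟨i, hi, hv⟩, fun h2 => absurd h2 h⟩⟩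
  obtain ⟨s1, h1⟩ := h1
  obtain ⟨s2, h2⟩ := h2
  exact ⟨max s1 s2, fun s hs => and_congr (h1 s (by omega)) (h2 s (by omega))⟩

theorem k_lim (hd : Dyn v mv) (z : I) : ∃ s0, ∀ s ≥ s0, (Kk v mv s z ↔ TK v mv z) := by
  by_cases h : TK v mv z
  · exact ⟨0, fun s _ => ⟨fun _ => h, fun _ i _ => h s i⟩⟩
  · have h' := h
    unfold TK at h'
    push Not at h'
    obtain ⟨k, i, hi⟩ := h'
    refine ⟨max k i, fun s hs => ⟨fun h2 => ?_, fun h2 => absurd h2 h⟩⟩
    exact absurd (hd.down k s _ _ (by omega : k ≤ s) (h2 i (by omega))) (by omega)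

/-- every forward orbit has infinitely many candidates of every level -/
theorem tb_hit (hd : Dyn v mv) (k : ℕ) (z : I) : ∃ i, 0 < i ∧ TB v mv k (mv i z) := by
  classical
  obtain ⟨b, hb⟩ := hd.bd k
  have hex : ∃ w, ∀ n, ∃ i ≥ n, v k (mv i z) ≤ w := ⟨b, fun n => ⟨n, le_rfl, hb _⟩⟩
  have h1 := Nat.find_spec hex
  have h2 := fun v' (h' : v' < Nat.find hex) => Nat.find_min hex h'
  generalize Nat.find hex = w at h1 h2
  obtain ⟨n0, hn0⟩ : ∃ n0, ∀ i ≥ n0, w ≤ v k (mv i z) := by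
    rcases Nat.eq_zero_or_pos w with hv | hv
    · exact ⟨0, fun i _ => by omega⟩
    · have h3 := h2 (w - 1) (by omega)
      push Not at h3
      obtain ⟨n0, hn0⟩ := h3
      exact ⟨n0, fun i hi => by have := hn0 i hi; omega⟩
  obtain ⟨i, hi, hiv⟩ := h1 (n0 + 1)
  obtain ⟨j, hj, hjv⟩ := h1 (i + 1)
  have e1 := hn0 i (by omega)
  refine ⟨i, by omega, fun l => ?_, j - i, by omega, ?_⟩
  · rw [hd.mm]
    have := hn0 (l + i) (by omega)
    omega
  · rw [hd.mm, show j - i + i = j by omega]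
    have := hn0 j (by omega)
    omega

/-- the first candidate after `z` -/
theorem tb_first (hd : Dyn v mv) (k : ℕ) (z : I) :
    ∃ i, 0 < i ∧ TB v mv k (mv i z) ∧ ∀ j < i, 0 < j → ¬ TB v mv k (mv j z) := by
  classical
  have hex := tb_hit hd k z
  have h1 := Nat.find_spec hex
  have h2 := fun v' (h' : v' < Nat.find hex) => Nat.find_min hex h'
  generalize Nat.find hex = v at h1 h2
  exact ⟨v, h1.1, h1.2, fun j hj h0 hb => h2 j hj ⟨h0, hb⟩⟩

theorem nx_lim (hd : Dyn v mv) (k : ℕ) (z : I) :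
    ∃ s0, ∀ s ≥ s0, (Nx v mv k s z ↔ TN v mv k z) := by
  obtain ⟨i, h1, h2, h3⟩ := tb_first hd k z
  obtain ⟨s1, hs1⟩ := bdd_lt (i + 1) (fun j s => (Bk v mv k s (mv j z) ↔ TB v mv k (mv j z)))
    (fun j _ => b_lim k (mv j z))
  obtain ⟨s2, hs2⟩ := k_lim hd (mv i z)
  refine ⟨max i (max s1 s2), fun s hs => ?_⟩
  have hb := fun j hj => hs1 j hj s (by omega)
  constructor
  · rintro ⟨i', g1, g2, g3, g4, g5⟩
    have hii : i' = i := by
      rcases lt_trichotomy i' i with h | h | h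
      · exact absurd ((hb i' (by omega)).1 g3) (h3 i' h g2)
      · exact h
      · exact absurd ((hb i (by omega)).2 h2) (g4 i h h1)
    subst hii
    exact ⟨i', h1, h2, h3, (hs2 s (by omega)).1 g5⟩
  · rintro ⟨i', g1, g2, g3, g4⟩
    have hii : i' = i := by
      rcases lt_trichotomy i' i with h | h | h
      · exact absurd g2 (h3 i' h g1)
      · exact h
      · exact absurd h2 (g3 i h h1)
    subst hii
    exact ⟨i', by omega, h1, (hb i' (by omega)).2 h2,
      fun j hj h0 hB => h3 j hj h0 ((hb j (by omega)).1 hB), (hs2 s (by omega)).2 g4⟩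

theorem m_lim (hd : Dyn v mv) (k : ℕ) (z : I) :
    ∃ s0, ∀ s ≥ s0, (Mk v mv k s z ↔ TM v mv k z) := by
  obtain ⟨s1, h1⟩ := b_lim (v := v) (mv := mv) k z
  obtain ⟨s2, h2⟩ := k_lim hd z
  obtain ⟨s3, h3⟩ := nx_lim hd k z
  exact ⟨max s1 (max s2 s3), fun s hs => and_congr (h1 s (by omega))
    (or_congr (not_congr (h2 s (by omega))) (h3 s (by omega)))⟩

theorem tm_hit (hd : Dyn v mv) (k : ℕ) (z : I) : ∃ i, TM v mv k (mv i z) := by
  obtain ⟨i, h1, h2, h3⟩ := tb_first hd k z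
  by_cases hK : TK v mv (mv i z)
  · obtain ⟨j, g1, g2, g3⟩ := tb_first hd k (mv i z)
    by_cases hK' : TK v mv (mv j (mv i z))
    · exact ⟨i, h2, Or.inr ⟨j, g1, g2, g3, hK'⟩⟩
    · refine ⟨j + i, ?_⟩
      rw [← hd.mm]
      exact ⟨g2, Or.inl hK'⟩
  · exact ⟨i, h2, Or.inl hK⟩

theorem tm_fin (hd : Dyn v mv) {z : I} (h : ¬ Per v mv z) : ∃ k0, ∀ k ≥ k0, ¬ TM v mv k z := by
  classical
  by_cases hK : TK v mv z
  · have hper : ∀ p, 0 < p → mv p z ≠ z := fun p hp he => h ⟨hK, p, hp, he⟩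
    by_cases hn : ∃ i, 0 < i ∧ TK v mv (mv i z)
    · have h1 := Nat.find_spec hn
      generalize Nat.find hn = n at h1
      obtain ⟨hn0, hKn⟩ := h1
      have hdiff : ∀ i < n + 1, ∃ a, ∀ b ≥ a, 0 < i → v b (mv i z) ≠ v b z := by
        intro i _
        by_cases hi : 0 < i
        · by_contra hc
          push Not at hc
          refine hper i hi (hd.ext _ _ fun m => ?_)
          obtain ⟨b, hb, -, he⟩ := hc m
          exact le_antisymm (hd.down m b _ _ hb he.le) (hd.down m b _ _ hb he.ge)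
        · exact ⟨0, fun _ _ h0 => absurd h0 hi⟩
      obtain ⟨k0, hk0⟩ := bdd_lt (n + 1) (fun i b => 0 < i → v b (mv i z) ≠ v b z) hdiff
      refine ⟨k0, fun k hk hM => ?_⟩
      obtain ⟨⟨-, i, hi, he⟩, -⟩ := hM
      by_cases hin : i < n + 1
      · exact hk0 i hin k hk hi he
      · have h2 := hKn k (i - n)
        rw [hd.mm, show i - n + n = i by omega, he] at h2
        have h3 := hK k n
        exact hk0 n (Nat.lt_succ_self n) k hk hn0 (le_antisymm h2 h3)
    · refine ⟨0, fun k _ hM => ?_⟩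
      rcases hM.2 with h1 | ⟨i, h1, -, -, h2⟩
      · exact h1 hK
      · exact hn ⟨i, h1, h2⟩
  · have h' := hK
    unfold TK at h'
    push Not at h'
    obtain ⟨k0, i, hi⟩ := h'
    refine ⟨k0, fun k hk hM => ?_⟩
    exact absurd (hd.down k0 k _ _ hk (hM.1.1 i)) (by omega)

open Classical in
/-- the distance to the first marker of level `k` -/
noncomputable def TNn (hd : Dyn v mv) (k : ℕ) (z : I) : ℕ := Nat.find (tm_hit hd k z)

theorem nn_lim (hd : Dyn v mv) (k : ℕ) (z : I) : ∃ s0, ∀ s ≥ s0, nn v mv k s z = TNn hd k z := by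
  classical
  have h1 : TM v mv k (mv (TNn hd k z) z) := Nat.find_spec (tm_hit hd k z)
  have h2 : ∀ j < TNn hd k z, ¬ TM v mv k (mv j z) := fun j hj => Nat.find_min (tm_hit hd k z) hj
  obtain ⟨s1, hs1⟩ := bdd_lt (TNn hd k z + 1)
    (fun j s => (Mk v mv k s (mv j z) ↔ TM v mv k (mv j z))) (fun j _ => m_lim hd k (mv j z))
  refine ⟨max s1 (TNn hd k z), fun s hs => ?_⟩
  exact lst_eq ((hs1 _ (Nat.lt_succ_self _) s (by omega)).2 h1)
    (fun j hj hM => h2 j hj ((hs1 j (by omega) s (by omega)).1 hM)) (by omega)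

theorem TNn_cases (hd : Dyn v mv) (h0 : mv 0 = id) (k : ℕ) (z : I) :
    (TM v mv k z → TNn hd k z = 0) ∧
    (¬ TM v mv k z → TNn hd k z = TNn hd k (mv 1 z) + 1) := by
  classical
  constructor
  · intro h
    refine (Nat.find_eq_zero (tm_hit hd k z)).2 ?_
    rw [h0]
    exact h
  · intro h
    have h1 : TM v mv k (mv (TNn hd k (mv 1 z)) (mv 1 z)) := Nat.find_spec (tm_hit hd k (mv 1 z))
    have h2 : ∀ j < TNn hd k (mv 1 z), ¬ TM v mv k (mv j (mv 1 z)) :=
      fun j hj => Nat.find_min (tm_hit hd k (mv 1 z)) hj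
    rw [hd.mm] at h1
    refine (Nat.find_eq_iff (tm_hit hd k z)).2 ⟨h1, fun j hj => ?_⟩
    rcases Nat.eq_zero_or_pos j with h3 | h3
    · subst h3
      rw [h0]
      exact h
    · have := h2 (j - 1) (by omega)
      rwa [hd.mm, show j - 1 + 1 = j by omega] at this

noncomputable def TG (hd : Dyn v mv) (k : ℕ) (z : I) : ℕ := gr k (fun j => TNn hd j z) (k + 1)

theorem gg_lim (hd : Dyn v mv) (k : ℕ) (z : I) : ∃ s0, ∀ s ≥ s0, gg v mv k s z = TG hd k z := by
  obtain ⟨s0, h0⟩ := bdd_lt (k + 1) (fun j s => nn v mv j s z = TNn hd j z)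
    (fun j _ => nn_lim hd j z)
  exact ⟨s0, fun s hs => gr_congr (fun j hj => h0 j hj s hs) (by omega)⟩

theorem tg_shift (hd : Dyn v mv) (h0 : mv 0 = id) {z : I} (h : ¬ Per v mv z) :
    ∃ k0, ∀ k ≥ k0, TG hd k z = TG hd k (mv 1 z) + 1 := by
  obtain ⟨j0, hj0⟩ := tm_fin hd h
  refine gr_shift (j0 := j0) (fun j => ?_) (fun j hj => (TNn_cases hd h0 j z).2 (hj0 j hj))
  by_cases hM : TM v mv j z
  · exact Or.inl ((TNn_cases hd h0 j z).1 hM)
  · exact Or.inr ((TNn_cases hd h0 j z).2 hM)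

/-- From some level on `z` and its image are at neighbouring distances. -/
theorem exh (hd : Dyn v mv) (h0 : mv 0 = id) {z : I} (h : ¬ Per v mv z) :
    ∃ m0, ∀ m ≥ m0, ∃ s0, ∀ s ≥ s0, gg v mv m s z = gg v mv m s (mv 1 z) + 1 := by
  obtain ⟨m0, hm0⟩ := tg_shift hd h0 h
  refine ⟨m0, fun m hm => ?_⟩
  obtain ⟨s1, h1⟩ := gg_lim hd m z
  obtain ⟨s2, h2⟩ := gg_lim hd m (mv 1 z)
  refine ⟨max s1 s2, fun s hs => ?_⟩
  rw [h1 s (by omega), h2 s (by omega), hm0 m hm]

/-- In the exceptional case the other points of the cycle are not exceptional. -/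
theorem per_cycle (hd : Dyn v mv) {z : I} (h : Per v mv z) : ∃ p, 0 < p ∧ mv p z = z ∧
    ∀ i < p, 0 < i → ¬ Per v mv (mv i z) := by
  classical
  obtain ⟨hK, hp⟩ := h
  have h1 := Nat.find_spec hp
  have h2 := fun j (hj : j < Nat.find hp) => Nat.find_min hp hj
  generalize Nat.find hp = p at h1 h2
  refine ⟨p, h1.1, h1.2, fun i hi h0 hP => h2 i hi ⟨h0, ?_⟩⟩
  refine (hd.ext _ _ fun m => ?_)
  refine le_antisymm ?_ (hK m i)
  have h3 := hP.1 m (p - i)
  rwa [hd.mm, show p - i + i = p by omega, h1.2] at h3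

end

/-! Comparison. -/

section

variable {I J : Type} {v : ℕ → I → ℕ} {mv : ℕ → I → I} {v' : ℕ → J → ℕ} {mv' : ℕ → J → J}
  {φ : J → I} {rk : J → ℕ} {K N : ℕ}

/-- the data on `J` describe those on `I` in a region -/
structure Tr (v : ℕ → I → ℕ) (mv : ℕ → I → I) (v' : ℕ → J → ℕ) (mv' : ℕ → J → J) (φ : J → I)
    (rk : J → ℕ) (ok : J → Prop) (K N : ℕ) : Prop where
  hv : ∀ p, ok p → rk p ≤ K → ∀ m ≤ N, v' m p = v m (φ p)
  hm : ∀ i p, φ (mv' i p) = mv i (φ p)
  hr : ∀ i p, rk (mv' i p) ≤ rk p + i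
  hok : ∀ i p, ok p → ok (mv' i p)

variable {ok : J → Prop}

theorem Bk_tr (h : Tr v mv v' mv' φ rk ok K N) {k s : ℕ} {p : J} (hk : k ≤ N) (hs : s ≤ N)
    (hp : rk p + N ≤ K) (ho : ok p) : Bk v' mv' k s p ↔ Bk v mv k s (φ p) := by
  unfold Bk BA BR
  rw [h.hv p ho (by omega) k hk]
  refine and_congr (forall_congr' fun i => forall_congr' fun hi => ?_)
    (exists_congr fun i => and_congr_right fun hi => ?_)
  · have := h.hr i p
    rw [h.hv _ (h.hok i p ho) (by omega) k hk, h.hm]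
  · have := h.hr i p
    rw [h.hv _ (h.hok i p ho) (by omega) k hk, h.hm]

theorem Kk_tr (h : Tr v mv v' mv' φ rk ok K N) {s : ℕ} {p : J} (hs : s ≤ N)
    (hp : rk p + N ≤ K) (ho : ok p) : Kk v' mv' s p ↔ Kk v mv s (φ p) := by
  unfold Kk
  rw [h.hv p ho (by omega) s hs]
  refine forall_congr' fun i => forall_congr' fun hi => ?_
  have := h.hr i p
  rw [h.hv _ (h.hok i p ho) (by omega) s hs, h.hm]

theorem Mk_tr (h : Tr v mv v' mv' φ rk ok K N) {k s : ℕ} {p : J} (hk : k ≤ N) (hs : s ≤ N)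
    (hp : rk p + 2 * N ≤ K) (ho : ok p) : Mk v' mv' k s p ↔ Mk v mv k s (φ p) := by
  unfold Mk Nx
  refine and_congr (Bk_tr h hk hs (by omega) ho) (or_congr (not_congr
    (Kk_tr h hs (by omega) ho)) (exists_congr fun i => and_congr_right fun hi => ?_))
  have hr := h.hr i p
  have h1 := Bk_tr h (p := mv' i p) hk hs (by omega) (h.hok i p ho)
  have h2 := Kk_tr h (p := mv' i p) hs (by omega) (h.hok i p ho)
  rw [h.hm] at h1 h2
  refine and_congr Iff.rfl (and_congr h1 (and_congr (forall_congr' fun j =>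
    forall_congr' fun hj => ?_) h2))
  have hr' := h.hr j p
  have h3 := Bk_tr h (p := mv' j p) hk hs (by omega) (h.hok j p ho)
  rw [h.hm] at h3
  rw [h3]

theorem gg_tr (h : Tr v mv v' mv' φ rk ok K N) {k s : ℕ} {p : J} (hk : k ≤ N) (hs : s ≤ N)
    (hp : rk p + 3 * N ≤ K) (ho : ok p) : gg v' mv' k s p = gg v mv k s (φ p) := by
  refine gr_congr (fun j hj => ?_) (by omega)
  refine lst_congr fun i hi => ?_
  have hr := h.hr i p
  have h1 := Mk_tr h (k := j) (p := mv' i p) (by omega) hs (by omega) (h.hok i p ho)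
  rwa [h.hm] at h1

end

end Pool.Agent.TH769.LH
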