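import Pool.Agent.TH769.LH.Nod
import Pool.Agent.TH769.ZA.Tbl

set_option autoImplicit false

/-!
The construction on nodes is primitive recursive in finite data.
-/

namespace Pool.Agent.TH769.LH

open Encodable Pool.Agent.Helper227 Pool.Agent.H548R2.Post
open Nat.Partrec (Code)
open Pool.Agent.TH769.CD (jp jp_congr bdd_lt pf_add pf_mul pf_div pf_mod pf_pow pf_getD pf_take
  pf_append pf_cons pf_length pf_range pf_natPair pf_unpair pf_encode pf_testBit pf_xorb pf_andb
  pf_hlt pf_xor pp_exlt pp_alllt pp_imp pp_eq pp_le pp_lt pp_mem pf_decide pf_pre pp_En pf_ext)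
open Pool.Agent.TH769.ZA (val pf_val pf_sub)
open Pool.Agent.TH769.TL (gr VZ)

attribute [local fun_prop] Primrec
attribute [local fun_prop] Primrec.id Primrec.const Primrec.comp Primrec.pair Primrec.fst Primrec.snd
attribute [local fun_prop] pf_add pf_mul pf_div pf_mod pf_pow pf_getD pf_take pf_append pf_cons
  pf_length pf_range pf_natPair pf_unpair pf_encode pf_testBit pf_xorb pf_andb pf_hlt pf_xor pf_sub

section

variable {α β : Type} [Primcodable α] [Primcodable β] {r : ℕ}

@[local fun_prop] theorem pf_mvN {i : β → ℕ} {p : β → Nd} (hi : Primrec i) (hp : Primrec p) :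
    Primrec fun b => mvN r (i b) (p b) := by
  unfold mvN
  fun_prop

@[local fun_prop] theorem pf_ctN {l w : β → ℕ} {p : β → Nd} (hl : Primrec l) (hw : Primrec w)
    (hp : Primrec p) : Primrec fun b => ctN r (l b) (w b) (p b) := by
  unfold ctN
  fun_prop

@[local fun_prop] theorem pf_bb {m : β → ℕ} (hm : Primrec m) : Primrec fun b => bb (m b) := by
  unfold bb
  fun_prop

theorem pf_lst {q : β → ℕ → Prop} (hq : PrimrecPred fun x : β × ℕ => q x.1 x.2) {t : β → ℕ}
    (ht : Primrec t) : Primrec fun b => lst (q b) (t b) := by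
  classical
  have hh : Primrec₂ fun (b : β) (y : ℕ × ℕ) =>
      if y.2 < y.1 then y.2 else if q b y.1 then y.1 else y.1 + 1 := by
    have h1 : Primrec fun z : β × (ℕ × ℕ) =>
        if z.2.2 < z.2.1 then z.2.2 else if q z.1 z.2.1 then z.2.1 else z.2.1 + 1 := by
      refine Primrec.ite (pp_lt (by fun_prop) (by fun_prop)) (by fun_prop)
        (Primrec.ite ?_ (by fun_prop) (by fun_prop))
      exact hq.comp (p := fun x : β × ℕ => q x.1 x.2) (f := fun z : β × (ℕ × ℕ) => (z.1, z.2.1))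
        (by fun_prop)
    exact h1
  have h := Primrec.nat_rec' (f := t) (g := fun _ => 0) ht (Primrec.const 0) hh
  refine h.of_eq fun b => ?_
  generalize t b = n
  induction n with
  | zero => rfl
  | succ n ih =>
    change _ = (if lst (q b) n < n then lst (q b) n else if q b n then n else n + 1)
    rw [← ih]

theorem pf_gr {q : β → ℕ → ℕ} (hq : Primrec fun x : β × ℕ => q x.1 x.2) {k i : β → ℕ}
    (hk : Primrec k) (hi : Primrec i) : Primrec fun b => gr (k b) (q b) (i b) := by
  have hqq : ∀ {γ : Type} [Primcodable γ] {b : γ → β} {n : γ → ℕ}, Primrec b → Primrec n →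
      Primrec fun c => q (b c) (n c) := fun hb hn =>
    hq.comp (f := fun x : β × ℕ => q x.1 x.2) (hb.pair hn)
  have hmin : ∀ {γ : Type} [Primcodable γ] {b n : γ → ℕ}, Primrec b → Primrec n →
      Primrec fun c => min (b c) (n c) := fun hb hn => Primrec.nat_min.comp hb hn
  have hmax : ∀ {γ : Type} [Primcodable γ] {b n : γ → ℕ}, Primrec b → Primrec n →
      Primrec fun c => max (b c) (n c) := fun hb hn => Primrec.nat_max.comp hb hn
  have hh : Primrec₂ fun (b : β) (y : ℕ × ℕ) =>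
      if min (q b y.1) (q b (k b)) ≤ y.2 + k b then max y.2 (min (q b y.1) (q b (k b)))
        else y.2 := by
    have h0 : Primrec fun z : β × (ℕ × ℕ) => min (q z.1 z.2.1) (q z.1 (k z.1)) :=
      hmin (hqq (by fun_prop) (by fun_prop)) (hqq (by fun_prop) (by fun_prop))
    have h1 : Primrec fun z : β × (ℕ × ℕ) =>
        if min (q z.1 z.2.1) (q z.1 (k z.1)) ≤ z.2.2 + k z.1 then
          max z.2.2 (min (q z.1 z.2.1) (q z.1 (k z.1))) else z.2.2 :=
      Primrec.ite (pp_le h0 (by fun_prop)) (hmax (by fun_prop) h0) (by fun_prop)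
    exact h1
  have h := Primrec.nat_rec' (f := i) (g := fun _ => 0) hi (Primrec.const 0) hh
  refine h.of_eq fun b => ?_
  generalize i b = n
  induction n with
  | zero => rfl
  | succ n ih =>
    change _ = (if min (q b n) (q b (k b)) ≤ gr (k b) (q b) n + k b then
      max (gr (k b) (q b) n) (min (q b n) (q b (k b))) else gr (k b) (q b) n)
    rw [← ih]

section gen

variable {v : α → ℕ → Nd → ℕ}

theorem pf_v (hv : Primrec fun x : α × ℕ × Nd => v x.1 x.2.1 x.2.2) {a : β → α} {m : β → ℕ}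
    {p : β → Nd} (ha : Primrec a) (hm : Primrec m) (hp : Primrec p) :
    Primrec fun b => v (a b) (m b) (p b) :=
  hv.comp (f := fun x : α × ℕ × Nd => v x.1 x.2.1 x.2.2) (g := fun b => (a b, m b, p b))
    (by fun_prop)

theorem pp_Bk (hv : Primrec fun x : α × ℕ × Nd => v x.1 x.2.1 x.2.2) {a : β → α}
    {k s : β → ℕ} {p : β → Nd} (ha : Primrec a) (hk : Primrec k) (hs : Primrec s)
    (hp : Primrec p) : PrimrecPred fun b => Bk (v (a b)) (mvN r) (k b) (s b) (p b) := by
  refine PrimrecPred.and (pp_alllt (by fun_prop) (pp_le (pf_v hv (by fun_prop) (by fun_prop)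
    (by fun_prop)) (pf_v hv (by fun_prop) (by fun_prop) (by fun_prop))))
    (pp_exlt (by fun_prop) (PrimrecPred.and (pp_lt (by fun_prop) (by fun_prop))
    (pp_eq (pf_v hv (by fun_prop) (by fun_prop) (by fun_prop))
      (pf_v hv (by fun_prop) (by fun_prop) (by fun_prop)))))

theorem pp_Kk (hv : Primrec fun x : α × ℕ × Nd => v x.1 x.2.1 x.2.2) {a : β → α}
    {s : β → ℕ} {p : β → Nd} (ha : Primrec a) (hs : Primrec s)
    (hp : Primrec p) : PrimrecPred fun b => Kk (v (a b)) (mvN r) (s b) (p b) := by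
  refine pp_alllt (by fun_prop) (pp_le (pf_v hv (by fun_prop) (by fun_prop)
    (by fun_prop)) (pf_v hv (by fun_prop) (by fun_prop) (by fun_prop)))

theorem pp_Mk (hv : Primrec fun x : α × ℕ × Nd => v x.1 x.2.1 x.2.2) {a : β → α}
    {k s : β → ℕ} {p : β → Nd} (ha : Primrec a) (hk : Primrec k) (hs : Primrec s)
    (hp : Primrec p) : PrimrecPred fun b => Mk (v (a b)) (mvN r) (k b) (s b) (p b) := by
  refine PrimrecPred.and (pp_Bk hv ha hk hs hp) (PrimrecPred.or (PrimrecPred.not
    (pp_Kk hv ha hs hp)) (pp_exlt (by fun_prop) (PrimrecPred.and (pp_lt (by fun_prop)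
    (by fun_prop)) (PrimrecPred.and (pp_Bk hv (by fun_prop) (by fun_prop) (by fun_prop)
    (by fun_prop)) (PrimrecPred.and (pp_alllt (by fun_prop) (pp_imp (pp_lt (by fun_prop)
    (by fun_prop)) (PrimrecPred.not (pp_Bk hv (by fun_prop) (by fun_prop) (by fun_prop)
    (by fun_prop))))) (pp_Kk hv (by fun_prop) (by fun_prop) (by fun_prop)))))))

theorem pf_gg (hv : Primrec fun x : α × ℕ × Nd => v x.1 x.2.1 x.2.2) {a : β → α}
    {k s : β → ℕ} {p : β → Nd} (ha : Primrec a) (hk : Primrec k) (hs : Primrec s)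
    (hp : Primrec p) : Primrec fun b => gg (v (a b)) (mvN r) (k b) (s b) (p b) := by
  refine pf_gr (q := fun b i => nn (v (a b)) (mvN r) i (s b) (p b)) ?_ hk (by fun_prop)
  refine pf_lst (q := fun (x : β × ℕ) i => Mk (v (a x.1)) (mvN r) x.2 (s x.1)
    (mvN r i (p x.1))) ?_ (by fun_prop)
  exact pp_Mk hv (by fun_prop) (by fun_prop) (by fun_prop) (by fun_prop)

end gen

section st

variable {Y : α → Nd → R} {V : α → ℕ → Nd → ℕ → Prop}

theorem pf_Y (hY : Primrec fun x : α × Nd × ℕ => Y x.1 x.2.1 x.2.2) {a : β → α} {p : β → Nd}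
    {i : β → ℕ} (ha : Primrec a) (hp : Primrec p) (hi : Primrec i) :
    Primrec fun b => Y (a b) (p b) (i b) :=
  hY.comp (f := fun x : α × Nd × ℕ => Y x.1 x.2.1 x.2.2) (g := fun b => (a b, p b, i b))
    (by fun_prop)

theorem pf_vY (hY : Primrec fun x : α × Nd × ℕ => Y x.1 x.2.1 x.2.2) :
    Primrec fun x : α × ℕ × Nd => vY (Y x.1) x.2.1 x.2.2 :=
  pf_val (Y := fun x : α × ℕ × Nd => Y x.1 x.2.2) (pf_Y hY (by fun_prop) (by fun_prop)
    (by fun_prop)) (by fun_prop)

theorem pf_gN (hY : Primrec fun x : α × Nd × ℕ => Y x.1 x.2.1 x.2.2) {a : β → α}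
    {m s : β → ℕ} {p : β → Nd} (ha : Primrec a) (hm : Primrec m) (hs : Primrec s)
    (hp : Primrec p) : Primrec fun b => gN r (Y (a b)) (m b) (s b) (p b) :=
  pf_gg (v := fun a => vY (Y a)) (pf_vY hY) ha hm hs hp

theorem pf_memN (hY : Primrec fun x : α × Nd × ℕ => Y x.1 x.2.1 x.2.2) {a : β → α}
    {m s l w : β → ℕ} {p : β → Nd} (ha : Primrec a) (hm : Primrec m) (hs : Primrec s)
    (hp : Primrec p) (hl : Primrec l) (hw : Primrec w) :
    Primrec fun b => memN r (Y (a b)) (m b) (s b) (p b) (l b) (w b) :=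
  pf_ctN hl hw (pf_mvN (pf_gN hY ha hm hs hp) hp)

theorem pp_DN (hY : Primrec fun x : α × Nd × ℕ => Y x.1 x.2.1 x.2.2) {a : β → α}
    {m s : β → ℕ} {p : β → Nd} (ha : Primrec a) (hm : Primrec m) (hs : Primrec s)
    (hp : Primrec p) : PrimrecPred fun b => DN r (Y (a b)) (m b) (s b) (p b) :=
  PrimrecPred.not (pp_eq (pf_gN hY ha hm (by fun_prop) hp) (pf_gN hY ha hm hs hp))

theorem pp_ChgN (hY : Primrec fun x : α × Nd × ℕ => Y x.1 x.2.1 x.2.2) {a : β → α}
    {m s : β → ℕ} {p : β → Nd} (ha : Primrec a) (hm : Primrec m) (hs : Primrec s)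
    (hp : Primrec p) : PrimrecPred fun b => ChgN r (Y (a b)) (m b) (s b) (p b) := by
  refine PrimrecPred.or ?_ ?_
  · refine pp_exlt (by fun_prop) (pp_exlt (by fun_prop) (PrimrecPred.and (pp_eq ?_ (by fun_prop))
      ?_))
    · exact pf_gN hY (by fun_prop) (by fun_prop) (by fun_prop) (pf_memN hY (by fun_prop)
        (by fun_prop) (by fun_prop) (by fun_prop) (by fun_prop) (by fun_prop))
    · exact pp_DN hY (by fun_prop) (by fun_prop) (by fun_prop) (pf_memN hY (by fun_prop)
        (by fun_prop) (by fun_prop) (by fun_prop) (by fun_prop) (by fun_prop))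
  · refine pp_exlt (by fun_prop) (pp_exlt (by fun_prop) (PrimrecPred.and (pp_eq ?_ (by fun_prop))
      ?_))
    · exact pf_gN hY (by fun_prop) (by fun_prop) (by fun_prop) (pf_memN hY (by fun_prop)
        (by fun_prop) (by fun_prop) (by fun_prop) (by fun_prop) (by fun_prop))
    · exact pp_DN hY (by fun_prop) (by fun_prop) (by fun_prop) (pf_memN hY (by fun_prop)
        (by fun_prop) (by fun_prop) (by fun_prop) (by fun_prop) (by fun_prop))

theorem pp_StN (hY : Primrec fun x : α × Nd × ℕ => Y x.1 x.2.1 x.2.2) {a : β → α}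
    {m s u : β → ℕ} {p : β → Nd} (ha : Primrec a) (hm : Primrec m) (hs : Primrec s)
    (hp : Primrec p) (hu : Primrec u) :
    PrimrecPred fun b => StN r (Y (a b)) (m b) (s b) (p b) (u b) := by
  refine PrimrecPred.and (PrimrecPred.or (pp_eq (by fun_prop) (by fun_prop))
    (pp_ChgN hY ha hm hu hp)) (pp_alllt (by fun_prop) (pp_imp (pp_lt (by fun_prop) (by fun_prop))
    (PrimrecPred.not (pp_ChgN hY (by fun_prop) (by fun_prop) (by fun_prop) (by fun_prop)))))

theorem pp_V (hV : PrimrecPred fun x : α × ℕ × Nd × ℕ => V x.1 x.2.1 x.2.2.1 x.2.2.2)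
    {a : β → α} {s y : β → ℕ} {p : β → Nd} (ha : Primrec a) (hs : Primrec s) (hp : Primrec p)
    (hy : Primrec y) : PrimrecPred fun b => V (a b) (s b) (p b) (y b) :=
  hV.comp (p := fun x : α × ℕ × Nd × ℕ => V x.1 x.2.1 x.2.2.1 x.2.2.2)
    (f := fun b => (a b, s b, p b, y b)) (by fun_prop)

theorem pp_CY (hY : Primrec fun x : α × Nd × ℕ => Y x.1 x.2.1 x.2.2)
    (hV : PrimrecPred fun x : α × ℕ × Nd × ℕ => V x.1 x.2.1 x.2.2.1 x.2.2.2)
    {a : β → α} {s e u : β → ℕ} {p : β → Nd} (ha : Primrec a) (hs : Primrec s) (he : Primrec e)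
    (hu : Primrec u) (hp : Primrec p) :
    PrimrecPred fun b => CY (s b) (e b) (u b) (Y (a b) (p b)) (V (a b) (s b) (p b)) := by
  classical
  refine pp_eq (pf_hlt hs he he (pf_pre ?_ hu)) (by fun_prop)
  unfold jp
  refine Primrec.ite (pp_eq (by fun_prop) (by fun_prop)) ?_ (pf_decide ?_ _)
  · exact pf_Y hY (by fun_prop) (by fun_prop) (by fun_prop)
  · exact pp_V hV (by fun_prop) (by fun_prop) (by fun_prop) (by fun_prop)

theorem pp_EY (hY : Primrec fun x : α × Nd × ℕ => Y x.1 x.2.1 x.2.2)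
    {a : β → α} {s e u : β → ℕ} {p : β → Nd} (ha : Primrec a) (hs : Primrec s) (he : Primrec e)
    (hu : Primrec u) (hp : Primrec p) :
    PrimrecPred fun b => En (s b) (e b) (u b) (Y (a b) (p b)) :=
  pp_En (Y := fun b => Y (a b) (p b)) (pf_Y hY (by fun_prop) (by fun_prop) (by fun_prop)) hs he hu

theorem pp_FN (hY : Primrec fun x : α × Nd × ℕ => Y x.1 x.2.1 x.2.2)
    (hV : PrimrecPred fun x : α × ℕ × Nd × ℕ => V x.1 x.2.1 x.2.2.1 x.2.2.2)
    {a : β → α} {m s z : β → ℕ} {p : β → Nd} (ha : Primrec a) (hm : Primrec m) (hs : Primrec s)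
    (hp : Primrec p) (hz : Primrec z) :
    PrimrecPred fun b => FN r (Y (a b)) (V (a b)) (m b) (s b) (p b) (z b) := by
  refine PrimrecPred.and (pp_lt (by fun_prop) (by fun_prop)) (PrimrecPred.and ?_
    (PrimrecPred.and ?_ ?_))
  · refine pp_exlt (by fun_prop) (PrimrecPred.and ?_ (pp_eq (by fun_prop) (by fun_prop)))
    exact pp_StN hY (by fun_prop) (by fun_prop) (by fun_prop) (by fun_prop) (by fun_prop)
  · refine pp_exlt (by fun_prop) (pp_exlt (by fun_prop) (PrimrecPred.and ?_
      (PrimrecPred.and ?_ (pp_alllt (by fun_prop) (pp_imp ?_ (PrimrecPred.not ?_))))))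
    · exact pp_eq (pf_gN hY (by fun_prop) (by fun_prop) (by fun_prop) (pf_memN hY (by fun_prop)
        (by fun_prop) (by fun_prop) (by fun_prop) (by fun_prop) (by fun_prop))) (by fun_prop)
    · exact pp_EY hY (by fun_prop) (by fun_prop) (by fun_prop) (by fun_prop) (pf_memN hY
        (by fun_prop) (by fun_prop) (by fun_prop) (by fun_prop) (by fun_prop) (by fun_prop))
    · exact pp_V hV (by fun_prop) (by fun_prop) (pf_memN hY (by fun_prop)
        (by fun_prop) (by fun_prop) (by fun_prop) (by fun_prop) (by fun_prop)) (by fun_prop)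
    · exact pp_EY hY (by fun_prop) (by fun_prop) (by fun_prop) (by fun_prop) (pf_memN hY
        (by fun_prop) (by fun_prop) (by fun_prop) (by fun_prop) (by fun_prop) (by fun_prop))
  · refine pp_alllt (by fun_prop) (pp_alllt (by fun_prop) (pp_imp ?_ (pp_alllt (by fun_prop)
      (pp_imp (pp_exlt (by fun_prop) ?_) (pp_exlt (by fun_prop) (PrimrecPred.and
      (pp_lt (by fun_prop) (by fun_prop)) ?_))))))
    · exact pp_eq (pf_gN hY (by fun_prop) (by fun_prop) (by fun_prop) (pf_memN hY (by fun_prop)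
        (by fun_prop) (by fun_prop) (by fun_prop) (by fun_prop) (by fun_prop))) (by fun_prop)
    · exact pp_CY hY hV (by fun_prop) (by fun_prop) (by fun_prop) (by fun_prop) (pf_memN hY
        (by fun_prop) (by fun_prop) (by fun_prop) (by fun_prop) (by fun_prop) (by fun_prop))
    · exact pp_CY hY hV (by fun_prop) (by fun_prop) (by fun_prop) (by fun_prop) (pf_memN hY
        (by fun_prop) (by fun_prop) (by fun_prop) (by fun_prop) (by fun_prop) (by fun_prop))

theorem pp_SN (hY : Primrec fun x : α × Nd × ℕ => Y x.1 x.2.1 x.2.2)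
    (hV : PrimrecPred fun x : α × ℕ × Nd × ℕ => V x.1 x.2.1 x.2.2.1 x.2.2.2)
    {a : β → α} {s z : β → ℕ} {p : β → Nd} (ha : Primrec a) (hs : Primrec s)
    (hp : Primrec p) (hz : Primrec z) :
    PrimrecPred fun b => SN r (Y (a b)) (V (a b)) (s b) (p b) (z b) := by
  refine pp_exlt hs (PrimrecPred.and ?_ (pp_alllt (by fun_prop) (PrimrecPred.not ?_)))
  · exact pp_FN hY hV (by fun_prop) (by fun_prop) (by fun_prop) (by fun_prop) (by fun_prop)
  · exact pp_FN hY hV (by fun_prop) (by fun_prop) (by fun_prop) (by fun_prop) (by fun_prop)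

end st

end

end Pool.Agent.TH769.LH
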