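import Pool.Agent.TH769.LH.Tbl
import Pool.Agent.TH769.ZA.Deg

set_option autoImplicit false

/-!
The degrees of the sets constructed.
-/

namespace Pool.Agent.TH769.LH

open Encodable Pool.Agent.Helper227 Pool.Agent.H548R2.Post
open Nat.Partrec (Code)
open Pool.Agent.TH769.CD (jp jp_congr bdd_lt pf_add pf_mul pf_div pf_mod pf_pow pf_getD pf_take
  pf_append pf_cons pf_length pf_range pf_natPair pf_unpair pf_encode pf_testBit pf_xorb pf_andb
  pf_hlt pf_xor pp_exlt pp_alllt pp_imp pp_eq pp_le pp_lt pp_mem pf_decide pf_pre pp_En pf_ext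
  ext_pre_eq)
open Pool.Agent.TH769.ZA (val pf_val pf_sub Apx Apx.iter comp_iter si_gen apx_le)
open Pool.Agent.TH769.TL (gr VZ Step Act Cand Chg keep pos level_finite)

attribute [local fun_prop] Primrec
attribute [local fun_prop] Primrec.id Primrec.const Primrec.comp Primrec.pair Primrec.fst Primrec.snd
attribute [local fun_prop] pf_add pf_mul pf_div pf_mod pf_pow pf_getD pf_take pf_append pf_cons
  pf_length pf_range pf_natPair pf_unpair pf_encode pf_testBit pf_xorb pf_andb pf_hlt pf_xor pf_sub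
  pf_mvN pf_ctN pf_bb pf_kk

/-- the value of the operator: the join of `X` with the set constructed -/
noncomputable def WX (f : R → R) (X : R) : R := jp X (VT f X)

section

variable {f : R → R} {j : ℕ → R → R} {r : ℕ}

theorem WX_even (X : R) (m : ℕ) : WX f X (2 * m) = X m := by
  unfold WX jp
  rw [if_pos (by omega)]
  congr 1
  omega

theorem WX_odd (X : R) (m : ℕ) : WX f X (2 * m + 1) = true ↔ VT f X m := by
  unfold WX jp
  rw [if_neg (by omega), show (2 * m + 1) / 2 = m by omega]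
  exact @decide_eq_true_iff _ (Classical.propDecidable _)

theorem VT_iff (X : R) (z : ℕ) : VT f X z ↔ ∃ t, VZ (AA f) t X z :=
  ⟨fun ⟨s, h⟩ => ⟨s + 1, s, Nat.lt_succ_self s, h⟩, fun ⟨_, s, _, h⟩ => ⟨s, h⟩⟩

theorem le_WX (X : R) : TLe X (WX f X) := by
  have hf : Computable fun n : ℕ => 2 * n := by
    have : Primrec fun n : ℕ => 2 * n := by fun_prop
    exact this.to_comp
  exact tLe_of_computable hf fun n => (WX_even X n).symm

/-! The jump of `WX`. -/

theorem stable (X : R) (u : ℕ) :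
    ∃ s0, ∀ t ≥ s0, ∀ u' ≤ u, pre (jp X (VZ (AA f) t X)) u' = pre (WX f X) u' := by
  classical
  obtain ⟨a, ha⟩ := bdd_lt u (fun y t => (VZ (AA f) t X y ↔ VT f X y)) (fun y _ => by
    by_cases h : VT f X y
    · obtain ⟨s, hs⟩ := h
      exact ⟨s + 1, fun t ht => ⟨fun _ => ⟨s, hs⟩, fun _ => ⟨s, by omega, hs⟩⟩⟩
    · refine ⟨0, fun t _ => ⟨fun h1 => (VT_iff X y).2 ⟨t, h1⟩, fun h1 => absurd h1 h⟩⟩)
  refine ⟨a, fun t ht u' hu' => ?_⟩
  refine T03_pre (s := u') (fun i hi => ?_) le_rfl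
  exact jp_congr (u := u') (fun _ _ => rfl) (fun y hy => ha y (by omega) t ht) i hi

theorem jump_true' (X : R) (e : ℕ) (h : jump (WX f X) e = true) :
    ∃ s0, ∀ s ≥ s0, En s e e (jp X (VZ (AA f) s X)) := by
  rw [jump_eq_true] at h
  obtain ⟨k, hk⟩ := h
  obtain ⟨s1, hs1⟩ := (exists_hlt_iff e e _).2 hk
  obtain ⟨s2, hs2⟩ := stable (f := f) X k
  refine ⟨max (max s1 s2) k, fun s hs => ⟨k, by omega, ?_⟩⟩
  rw [hs2 s (by omega) k le_rfl]
  exact hlt_mono (by omega) hs1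

theorem jump_false' (hs : Sec f j r) (X : R) (e : ℕ) (h : jump (WX f X) e = false) :
    ∃ s0, ∀ s ≥ s0, ¬ En s e e (jp X (VZ (AA f) s X)) := by
  obtain ⟨s0, hs0⟩ := keep (sys hs) e X
  refine ⟨s0, fun s hs hEn => ?_⟩
  obtain ⟨u, hu, hh⟩ := hEn
  obtain ⟨a, ha⟩ := stable (f := f) X s
  obtain ⟨u', h1, h2, h3⟩ := hs0 s hs (max s a) (le_max_left _ _) s
    ⟨u, by omega, by omega, hh⟩
  have h4 : hlt (max s a) e e (pre (jp X (VZ (AA f) (max s a) X)) u') = true := h3
  rw [ha _ (le_max_right _ _) u' (by omega)] at h4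
  have h5 : jump (WX f X) e = true := by
    rw [jump_eq_true]
    exact ⟨u', (exists_hlt_iff e e _).1 ⟨_, h4⟩⟩
  rw [h] at h5
  exact Bool.false_ne_true h5

theorem ok0 : okN r (0, 0, 0) := by
  unfold okN
  simp

theorem ok1 : okN r (1, 0, 0) := by
  unfold okN
  simp

theorem ph0 (X : R) : ph f j r X (0, 0, 0) = X := rfl

theorem ph1 (X : R) : ph f j r X (1, 0, 0) = f X := rfl

theorem pp_VF {β : Type} [Primcodable β] {T : β → List ℕ} {t z : β → ℕ}
    (hT : Primrec T) (ht : Primrec t) (hz : Primrec z) :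
    PrimrecPred fun b => VF (T b) (t b) (z b) :=
  PrimrecPred.and (pp_lt (by fun_prop) (by fun_prop)) (pp_exlt (by fun_prop)
    (pp_mem (by fun_prop) (by fun_prop)))

theorem pf_jpF {β : Type} [Primcodable β] {O : β → Tb} {T : β → List ℕ} {t i : β → ℕ}
    (hO : Primrec O) (hT : Primrec T) (ht : Primrec t) (hi : Primrec i) :
    Primrec fun b => jp (YO (O b) (0, 0, 0)) (VF (T b) (t b)) (i b) := by
  classical
  unfold jp
  refine Primrec.ite (pp_eq (by fun_prop) (by fun_prop)) ?_ (pf_decide ?_ _)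
  · exact pf_YO (by fun_prop) (by fun_prop) (by fun_prop)
  · exact pp_VF (by fun_prop) (by fun_prop) (by fun_prop)

variable {g : List Bool → List Bool} {h : ℕ → List Bool → List Bool}

section si

variable (hs : Sec f j r) (hg : Apx g f) (ha : ∀ c < r, Apx (h c) (j c)) (cg : Computable g)
  (hh : Computable₂ h)

include hs hg ha cg hh

theorem si_VV (X : R) : SI X fun x : ℕ × ℕ => VZ (AA f) x.1 X x.2 :=
  si_tab hs hg ha cg hh X (F := fun _ T x => VF T x.1 x.2) (κ := fun x => x.1)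
    (pp_VF (by fun_prop) (by fun_prop) (by fun_prop)) (by fun_prop)
    (fun _ _ _ h1 h2 => VF_iff hs h1 h2)

theorem si_nVV (X : R) : SI X fun x : ℕ × ℕ => ¬ VZ (AA f) x.1 X x.2 :=
  si_tab hs hg ha cg hh X (F := fun _ T x => ¬ VF T x.1 x.2) (κ := fun x => x.1)
    (PrimrecPred.not (pp_VF (by fun_prop) (by fun_prop) (by fun_prop))) (by fun_prop)
    (fun _ _ _ h1 h2 => not_congr (VF_iff hs h1 h2))

theorem si_good (X : R) : SI X fun x : ℕ × ℕ =>
    gg vr (mr f) x.1 x.2 X = gg vr (mr f) x.1 x.2 (f X) + 1 := by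
  refine si_tab hs hg ha cg hh X (F := fun O _ x => gN r (YO O) x.1 x.2 (0, 0, 0) =
    gN r (YO O) x.1 x.2 (1, 0, 0) + 1) (κ := fun x => x.1 + x.2 + 1) ?_ (by fun_prop) ?_
  · refine pp_eq ?_ (pf_add ?_ (by fun_prop))
    · exact pf_gN (Y := fun x : Tb × List ℕ => YO x.1) pf_eY (a := fun x : (Tb × List ℕ) × ℕ × ℕ =>
        x.1) (by fun_prop) (by fun_prop) (by fun_prop) (by fun_prop)
    · exact pf_gN (Y := fun x : Tb × List ℕ => YO x.1) pf_eY (a := fun x : (Tb × List ℕ) × ℕ × ℕ =>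
        x.1) (by fun_prop) (by fun_prop) (by fun_prop) (by fun_prop)
  · rintro ⟨m, s⟩ O T h1 -
    simp only at h1 ⊢
    have hk : 1 + 3 * (m + s + 1) ≤ KY (m + s + 1) := by
      unfold KY
      have : 1 ≤ (m + s + 1) * (m + s + 1) := Nat.mul_pos (by omega) (by omega)
      omega
    have e0 : rk (0, 0, 0) = 0 := rfl
    have e1 : rk (1, 0, 0) = 1 := rfl
    rw [gN_eq hs h1 (by omega) (by omega) ok0 (by omega),
      gN_eq hs h1 (by omega) (by omega) ok1 (by omega), ph0, ph1]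

theorem si_Chg (X : R) : SI X fun x : ℕ × ℕ => Chg (QQ f) (DC f) x.1 x.2 X := by
  refine si_tab hs hg ha cg hh X (F := fun O _ x => ChgN r (YO O) x.1 x.2 (0, 0, 0))
    (κ := fun x => x.1 + x.2 + 1) ?_ (by fun_prop) ?_
  · exact pp_ChgN (Y := fun x : Tb × List ℕ => YO x.1) pf_eY (a := fun x : (Tb × List ℕ) × ℕ × ℕ =>
      x.1) (by fun_prop) (by fun_prop) (by fun_prop) (by fun_prop)
  · rintro ⟨m, s⟩ O T h1 -
    simp only at h1 ⊢
    have hk : 2 * bb m + 3 * (m + s + 1) ≤ KY (m + s + 1) := by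
      unfold KY
      have := bb_le (show m < m + s + 1 by omega)
      omega
    have e0 : rk (0, 0, 0) = 0 := rfl
    rw [ChgN_iff hs h1 (by omega) (by omega) ok0 (by omega), ph0]

theorem low (X : R) : TLe (jump (WX f X)) (jump X) := by
  have hF : PrimrecPred fun x : (Tb × List ℕ) × (ℕ × ℕ) =>
      En x.2.2 x.2.1 x.2.1 (jp (YO x.1.1 (0, 0, 0)) (VF x.1.2 x.2.2)) :=
    pp_En (Y := fun x : (Tb × List ℕ) × (ℕ × ℕ) => jp (YO x.1.1 (0, 0, 0)) (VF x.1.2 x.2.2))
      (pf_jpF (by fun_prop) (by fun_prop) (by fun_prop) (by fun_prop)) (by fun_prop)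
      (by fun_prop) (by fun_prop)
  have hR : ∀ (a : ℕ × ℕ) O T, GdY f j r X (YO O) (KY a.2) a.2 → Good r O T a.2 →
      (En a.2 a.1 a.1 (jp (YO O (0, 0, 0)) (VF T a.2)) ↔
        En a.2 a.1 a.1 (jp X (VZ (AA f) a.2 X))) := by
    intro a O T h1 h2
    refine En_congr (jp_congr (fun i hi => ?_) (fun y _ => VF_iff hs h1 h2))
    exact h1 (0, 0, 0) ok0 (Nat.zero_le _) i hi
  refine tLe_jump_of_limit (p := fun e s => En s e e (jp X (VZ (AA f) s X))) ?_ ?_
    (fun e he => jump_true' X e he) (fun e he => jump_false' hs X e he)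
  · exact si_tab hs hg ha cg hh X (F := fun O T x => En x.2 x.1 x.1 (jp (YO O (0, 0, 0))
      (VF T x.2))) (κ := fun x => x.2) hF (by fun_prop) hR
  · exact si_tab hs hg ha cg hh X (F := fun O T x => ¬ En x.2 x.1 x.1 (jp (YO O (0, 0, 0))
      (VF T x.2))) (κ := fun x => x.2) (PrimrecPred.not hF) (by fun_prop)
      (fun a O T h1 h2 => not_congr (hR a O T h1 h2))

theorem si_Vi (X : R) : SI X fun z : ℕ => VT f X z := by
  have h : SI X fun z : ℕ => ∃ t, VZ (AA f) t X z :=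
    SI.ex (p := fun (z t : ℕ) => VZ (AA f) t X z)
      ((si_VV hs hg ha cg hh X).comp (f := fun x : ℕ × ℕ => (x.2, x.1)) (by fun_prop))
  exact h.of_eq fun z => (VT_iff X z).symm

theorem si_WX (X : R) : SI X fun m : ℕ => WX f X m = true := by
  have h1 : SI X fun m : ℕ => m % 2 = 0 ∧ X (m / 2) = true :=
    SI.and (SI.of_prim (pp_eq (by fun_prop) (by fun_prop)))
      (SI.query.comp (f := fun m : ℕ => (m / 2, true)) (by fun_prop))
  have h2 : SI X fun m : ℕ => ¬ (m % 2 = 0) ∧ VT f X (m / 2) :=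
    SI.and (SI.of_prim (PrimrecPred.not (pp_eq (by fun_prop) (by fun_prop))))
      ((si_Vi hs hg ha cg hh X).comp (f := fun m : ℕ => m / 2) (by fun_prop))
  refine (SI.or h1 h2).of_eq fun m => ?_
  rcases Nat.even_or_odd' m with ⟨n, rfl | rfl⟩
  · rw [WX_even]
    have e1 : (2 * n) % 2 = 0 := by omega
    have e2 : (2 * n) / 2 = n := by omega
    simp [e1, e2]
  · rw [WX_odd]
    have e1 : (2 * n + 1) % 2 = 1 := by omega
    have e2 : (2 * n + 1) / 2 = n := by omega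
    simp [e1, e2]

theorem WX_le_jump (X : R) : TLe (WX f X) (jump X) := by
  rw [tLe_iff_SI]
  obtain ⟨h2, h3⟩ := (si_WX hs hg ha cg hh X).decide_jump
  have h4 : SI (jump X) fun x : ℕ × Bool =>
      (WX f X x.1 = true ∧ x.2 = true) ∨ (¬ WX f X x.1 = true ∧ x.2 = false) := by
    refine SI.or (SI.and (h2.comp Primrec.fst) (SI.of_prim ?_))
      (SI.and (h3.comp (f := fun x : ℕ × Bool => x.1) Primrec.fst) (SI.of_prim ?_))
    · exact Primrec.eq.comp Primrec.snd (Primrec.const true)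
    · exact Primrec.eq.comp Primrec.snd (Primrec.const false)
  refine h4.of_eq fun x => ?_
  rcases x with ⟨n, b⟩
  cases b <;> simp

end si

theorem not_WX_le (hs : Sec f j r) (X : R) : ¬ TLe (WX f X) X := by
  intro h
  have h1 : SI X (fun x : ℕ × Bool => WX f X x.1 = x.2) := tLe_iff_SI.1 h
  have h2 : SI X (fun z : ℕ => WX f X (2 * z + 1) = false) :=
    h1.comp (f := fun z : ℕ => (2 * z + 1, false)) (by fun_prop)
  have h3 : SI X (fun z : ℕ => z ∈ {z | ¬ VT f X z}) := by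
    refine h2.of_eq fun z => ?_
    rw [Set.mem_ofPred_eq, ← WX_odd, Bool.not_eq_true]
  obtain ⟨n, hn⟩ := ceIn_iff_exists_WE.1 (SI.iff_ceIn.2 h3)
  refine pos (sys hs) n X (fun z hz => ?_) (fun z s hz t hE => ?_)
  · have h4 : z ∈ WE X n := by
      rw [← hn]
      rintro ⟨s, hs⟩
      exact hz s hs
    exact (mem_WE_iff X n z).1 h4
  · have h4 : z ∈ WE X n := (mem_WE_iff X n z).2 ⟨t, hE⟩
    rw [← hn] at h4
    exact h4 ⟨s, hz⟩

/-! The index. -/

theorem index_S1 (r : ℕ) (cg : Computable g) (hh : Computable₂ h) :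
    S1 fun x : List Bool × ℕ => (x.2 % 2 = 0 ∧ x.1[x.2 / 2]? = some true) ∨
    (x.2 % 2 = 1 ∧ ∃ t, ∃ T : List ℕ, Lg (On r g h x.1 (BK r (KY t))) (BK r (KY t)) t ∧
      Good r (On r g h x.1 (BK r (KY t))) T t ∧ VF T t (x.2 / 2)) := by
  have hK : Primrec fun x : ℕ => BK r (KY x) := by
    unfold BK KY
    fun_prop
  refine S1.or (S1.of_prim (PrimrecPred.and (pp_eq (by fun_prop) (by fun_prop))
    (pp_eq (Primrec.list_getElem?.comp (by fun_prop) (by fun_prop)) (by fun_prop))))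
    (S1.and (S1.of_prim (pp_eq (by fun_prop) (by fun_prop))) ?_)
  refine S1.ex (p := fun (x : List Bool × ℕ) (t : ℕ) => ∃ T : List ℕ,
    Lg (On r g h x.1 (BK r (KY t))) (BK r (KY t)) t ∧
      Good r (On r g h x.1 (BK r (KY t))) T t ∧ VF T t (x.2 / 2)) ?_
  refine S1.ex (p := fun (y : (List Bool × ℕ) × ℕ) (T : List ℕ) =>
    Lg (On r g h y.1.1 (BK r (KY y.2))) (BK r (KY y.2)) y.2 ∧
      Good r (On r g h y.1.1 (BK r (KY y.2))) T y.2 ∧ VF T y.2 (y.1.2 / 2)) ?_
  have h1 : PrimrecPred fun y : Tb × (((List Bool × ℕ) × ℕ) × List ℕ) =>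
      Lg y.1 (BK r (KY y.2.1.2)) y.2.1.2 ∧ Good r y.1 y.2.2 y.2.1.2 ∧
        VF y.2.2 y.2.1.2 (y.2.1.1.2 / 2) :=
    PrimrecPred.and (pp_Lg (by fun_prop) (hK.comp (by fun_prop)) (by fun_prop))
      (PrimrecPred.and (pp_Good (by fun_prop) (by fun_prop) (by fun_prop))
        (pp_VF (by fun_prop) (by fun_prop) (by fun_prop)))
  have h2 : Computable fun y : ((List Bool × ℕ) × ℕ) × List ℕ =>
      ((y.1.1.1, BK r (KY y.1.2)) : List Bool × ℕ) :=
    (Computable.fst.comp (Computable.fst.comp Computable.fst)).pair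
      (hK.to_comp.comp (Computable.snd.comp Computable.fst))
  exact (S1.of_prim h1).comp_computable
    (f := fun y : ((List Bool × ℕ) × ℕ) × List ℕ => (On r g h y.1.1.1 (BK r (KY y.1.2)), y))
    (((comp_On cg hh).comp h2).pair Computable.id)

theorem exists_index (hs : Sec f j r) (hg : Apx g f) (ha : ∀ c < r, Apx (h c) (j c))
    (cg : Computable g) (hh : Computable₂ h) :
    ∃ e : ℕ, ∀ X : R, WE X e = {m | WX f X m = true} := by
  obtain ⟨c, hc⟩ := Nat.Partrec.Code.exists_code.1 (index_S1 (g := g) (h := h) r cg hh).re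
  refine ⟨encode c, fun X => ?_⟩
  ext m
  simp only [WE, Set.mem_ofPred_eq, Denumerable.ofNat_encode]
  have h1 : (∃ k : ℕ, (c.eval (encode ((List.range k).map X, m))).Dom) ↔
      ∃ k : ℕ, (m % 2 = 0 ∧ (pre X k)[m / 2]? = some true) ∨
      (m % 2 = 1 ∧ ∃ t, ∃ T : List ℕ,
        Lg (On r g h (pre X k) (BK r (KY t))) (BK r (KY t)) t ∧
        Good r (On r g h (pre X k) (BK r (KY t))) T t ∧ VF T t (m / 2)) := by
    refine exists_congr fun k => ?_
    rw [hc]
    simp [Part.assert, pre]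
  rw [h1]
  have h2 : ∀ k : ℕ, (pre X k)[m / 2]? = some true ↔ m / 2 < k ∧ X (m / 2) = true := by
    intro k
    unfold pre
    rw [List.getElem?_map]
    by_cases hk : m / 2 < k
    · rw [List.getElem?_eq_getElem (by simpa using hk)]
      simp [hk]
    · rw [List.getElem?_eq_none (by simpa using hk)]
      simp [hk]
  rcases Nat.even_or_odd' m with ⟨n, rfl | rfl⟩
  · rw [WX_even]
    have e2 : (2 * n) / 2 = n := by omega
    rw [e2] at h2 ⊢
    constructor
    · rintro ⟨k, ⟨-, h4⟩ | ⟨h3, -⟩⟩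
      · exact ((h2 k).1 h4).2
      · omega
    · intro h
      exact ⟨n + 1, Or.inl ⟨by omega, (h2 _).2 ⟨by omega, h⟩⟩⟩
  · rw [WX_odd, VT_iff]
    have e2 : (2 * n + 1) / 2 = n := by omega
    rw [e2]
    constructor
    · rintro ⟨k, ⟨h3, -⟩ | ⟨-, t, T, h3, h4, h5⟩⟩
      · omega
      · exact ⟨t, (VF_iff hs (gd_of_long hs.pos hg ha h3) h4).1 h5⟩
    · rintro ⟨t, ht⟩
      obtain ⟨M, hM⟩ := long_exists (X := X) hs.pos hg ha (BK r (KY t)) t
      have hgd := gd_of_long hs.pos hg ha (hM M le_rfl)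
      obtain ⟨T, hT⟩ := good_ex hs hgd
      exact ⟨M, Or.inr ⟨by omega, t, T, hM M le_rfl, hT, (VF_iff hs hgd hT).2 ht⟩⟩

theorem chr_WX {X : R} : chr {m | WX f X m = true} = WX f X := by
  funext m
  simp [chr]

end

end Pool.Agent.TH769.LH
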