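import Pool.Agent.TH769.LH.Deg

set_option autoImplicit false

/-!
Invariance under a map with finitely many sections.
-/

namespace Pool.Agent.TH769.LH

open Encodable Pool.Agent.Helper227 Pool.Agent.H548R2.Post
open Nat.Partrec (Code)
open Pool.Agent.TH769.CD (jp jp_congr bdd_lt pf_add pf_mul pf_div pf_mod pf_pow pf_getD pf_take
  pf_append pf_cons pf_length pf_range pf_natPair pf_unpair pf_encode pf_testBit pf_xorb pf_andb
  pf_hlt pf_xor pp_exlt pp_alllt pp_imp pp_eq pp_le pp_lt pp_mem pf_decide pf_pre pp_En pf_ext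
  ext_pre_eq)
open Pool.Agent.TH769.ZA (val pf_val pf_sub Apx Apx.iter comp_iter si_gen apx_le TT GG apx_GG comp_GG)
open Pool.Agent.TH769.TL (gr VZ Step Act Cand Chg keep pos level_finite)

attribute [local fun_prop] Primrec
attribute [local fun_prop] Primrec.id Primrec.const Primrec.comp Primrec.pair Primrec.fst Primrec.snd
attribute [local fun_prop] pf_add pf_mul pf_div pf_mod pf_pow pf_getD pf_take pf_append pf_cons
  pf_length pf_range pf_natPair pf_unpair pf_encode pf_testBit pf_xorb pf_andb pf_hlt pf_xor pf_sub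
  pf_mvN pf_ctN pf_bb pf_kk

section

variable {f : R → R} {j : ℕ → R → R} {r : ℕ} {g : List Bool → List Bool}
  {h : ℕ → List Bool → List Bool}

section inv

variable (hs : Sec f j r) (hg : Apx g f) (ha : ∀ c < r, Apx (h c) (j c)) (cg : Computable g)
  (hh : Computable₂ h)

include hs hg ha cg hh

theorem inv_neg (p q W : R) (G : ℕ × ℕ → Prop) (hG : SI W G) (hp : TLe p W)
    (hW : ∀ z, W (2 * z + 1) = true ↔ VT f q z)
    (hgood : ∀ m u z, z.unpair.1 = Nat.pair m u → G (m, u) → (VT f p z ↔ VT f q z))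
    (hbad : ∃ m0, ∀ m ≥ m0, ∀ u, ¬ G (m, u) → ∃ s, u < s ∧ Chg (QQ f) (DC f) m s p) :
    SI W fun z => ¬ VT f p z := by
  classical
  obtain ⟨m0, hbad⟩ := hbad
  obtain ⟨N, hN⟩ := bdd_lt m0 (fun m N => ∀ z, VT f p z → z.unpair.1.unpair.1 = m → z < N)
    (fun m _ => by
      obtain ⟨a, ha⟩ := level_finite (sys hs) m p
      refine ⟨a, fun c hc z hz hzm => ?_⟩
      obtain ⟨s, hs⟩ := hz
      have := ha z s hs hzm
      omega)
  let F : List ℕ := (List.range N).filter (fun z => decide (¬ VT f p z))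
  have a1 : SI W fun z : ℕ => G (z.unpair.1.unpair.1, z.unpair.1.unpair.2) ∧
      W (2 * z + 1) = false := by
    refine SI.and ?_ (SI.query.comp (f := fun z : ℕ => (2 * z + 1, false)) (by fun_prop))
    exact hG.comp (f := fun z : ℕ => (z.unpair.1.unpair.1, z.unpair.1.unpair.2)) (by fun_prop)
  have a2 : SI W fun z : ℕ => (N ≤ z ∧ z.unpair.1.unpair.1 < m0) ∨ z ∈ F :=
    SI.of_prim (PrimrecPred.or (PrimrecPred.and (pp_le (by fun_prop) (by fun_prop))
      (pp_lt (by fun_prop) (by fun_prop))) (pp_mem (by fun_prop) (by fun_prop)))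
  have a3 : SI W fun z : ℕ => ∃ s, z.unpair.1.unpair.2 < s ∧
      (Chg (QQ f) (DC f) z.unpair.1.unpair.1 s p ∧ ¬ VZ (AA f) s p z) := by
    refine SI.ex (p := fun (z s : ℕ) => z.unpair.1.unpair.2 < s ∧
      (Chg (QQ f) (DC f) z.unpair.1.unpair.1 s p ∧ ¬ VZ (AA f) s p z)) (SI.and
      (SI.of_prim (pp_lt (by fun_prop) (by fun_prop))) (SI.and ?_ ?_))
    · exact ((si_Chg hs hg ha cg hh p).trans hp).comp (f := fun x : ℕ × ℕ =>
        (x.1.unpair.1.unpair.1, x.2)) (by fun_prop)
    · exact ((si_nVV hs hg ha cg hh p).trans hp).comp (f := fun x : ℕ × ℕ => (x.2, x.1))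
        (by fun_prop)
  refine (SI.or a1 (SI.or a2 a3)).of_eq fun z => ?_
  have hz : z.unpair.1 = Nat.pair z.unpair.1.unpair.1 z.unpair.1.unpair.2 :=
    (Nat.pair_unpair _).symm
  constructor
  · rintro (⟨h1, h2⟩ | (⟨h1, h2⟩ | h1) | ⟨s, h1, h2, h3⟩) h4
    · have h5 : VT f q z := (hgood _ _ z hz h1).1 h4
      rw [(hW z).2 h5] at h2
      exact Bool.false_ne_true h2.symm
    · have := hN _ h2 N le_rfl z h4 rfl
      omega
    · have := (List.mem_filter.1 h1).2
      rw [decide_eq_true_eq] at this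
      exact this h4
    · exact h3 ((bad_iff hs hz h1 h2).1 h4)
  · intro h
    by_cases hm : z.unpair.1.unpair.1 < m0
    · right; left
      by_cases hzN : z < N
      · exact Or.inr (List.mem_filter.2 ⟨List.mem_range.2 hzN, by simpa using h⟩)
      · exact Or.inl ⟨by omega, hm⟩
    · by_cases hgd : G (z.unpair.1.unpair.1, z.unpair.1.unpair.2)
      · left
        refine ⟨hgd, ?_⟩
        have h5 : ¬ VT f q z := fun h6 => h ((hgood _ _ z hz hgd).2 h6)
        rw [← hW, Bool.not_eq_true] at h5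
        exact h5
      · right; right
        obtain ⟨s, h1, h2⟩ := hbad _ (by omega) _ hgd
        exact ⟨s, h1, h2, fun h3 => h ((bad_iff hs hz h1 h2).2 h3)⟩

theorem WX_le_of (X W : R) (hneg : SI W fun z => ¬ VT f X z) (hX : TLe X W) :
    TLe (WX f X) W := by
  have hpos : SI W fun m : ℕ => WX f X m = true := (si_WX hs hg ha cg hh X).trans hX
  have hev : SI W fun m : ℕ => m % 2 = 0 ∧ X (m / 2) = false :=
    SI.and (SI.of_prim (pp_eq (by fun_prop) (by fun_prop)))
      (((SI.query (B := X)).trans hX).comp (f := fun m : ℕ => (m / 2, false)) (by fun_prop))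
  have hod : SI W fun m : ℕ => m % 2 = 1 ∧ ¬ VT f X (m / 2) :=
    SI.and (SI.of_prim (pp_eq (by fun_prop) (by fun_prop)))
      (hneg.comp (f := fun m : ℕ => m / 2) (by fun_prop))
  rw [tLe_iff_SI]
  have h4 : SI W fun x : ℕ × Bool => (WX f X x.1 = true ∧ x.2 = true) ∨
      (((x.1 % 2 = 0 ∧ X (x.1 / 2) = false) ∨ (x.1 % 2 = 1 ∧ ¬ VT f X (x.1 / 2))) ∧
        x.2 = false) := by
    refine SI.or (SI.and (hpos.comp Primrec.fst) (SI.of_prim ?_))
      (SI.and ((SI.or hev hod).comp (f := fun x : ℕ × Bool => x.1) Primrec.fst) (SI.of_prim ?_))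
    · exact Primrec.eq.comp Primrec.snd (Primrec.const true)
    · exact Primrec.eq.comp Primrec.snd (Primrec.const false)
  refine h4.of_eq fun x => ?_
  rcases x with ⟨m, b⟩
  cases b with
  | true => simp
  | false =>
    rcases Nat.even_or_odd' m with ⟨n, rfl | rfl⟩
    · have e1 : (2 * n) % 2 = 0 := by omega
      have e2 : (2 * n) / 2 = n := by omega
      simp [e1, e2, WX_even]
    · have e1 : (2 * n + 1) % 2 = 1 := by omega
      have e2 : (2 * n + 1) / 2 = n := by omega
      have e3 : WX f X (2 * n + 1) = false ↔ ¬ VT f X n := by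
        rw [← WX_odd, Bool.not_eq_true]
      simp only [e1, e2, e3]
      simp

/-- `X` is computable from its image. -/
theorem le_image (X : R) : TLe X (f X) := by
  obtain ⟨c, hc, he⟩ := hs.cov X
  have h1 : Computable (h c) := hh.comp (Computable.const c) Computable.id
  have h2 := apx_le (ha c hc) h1 (f X)
  rwa [← he] at h2

/-- Invariance under the map, at the ordinary points. -/
theorem WX_eqv (X : R) (hP : ¬ Per vr (mr f) X) :
    TLe (WX f X) (WX f (f X)) ∧ TLe (WX f (f X)) (WX f X) := by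
  have h1 : TLe X (f X) := le_image hs hg ha cg hh X
  have h2 : TLe (f X) X := apx_le hg cg X
  have hX : TLe X (WX f (f X)) := TuringReducible.trans h1 (le_WX _)
  have hfX : TLe (f X) (WX f X) := TuringReducible.trans h2 (le_WX _)
  obtain ⟨m0, hm0⟩ := exh (dyn f) rfl hP
  have hm0' : ∀ m ≥ m0, ∃ s0, ∀ s ≥ s0,
      gg vr (mr f) m s X = gg vr (mr f) m s (f X) + 1 := hm0
  constructor
  · refine WX_le_of hs hg ha cg hh X _ (inv_neg hs hg ha cg hh X (f X) _ _
      ((si_good hs hg ha cg hh X).trans hX) hX (fun z => WX_odd _ _)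
      (fun m u z hz hG => good_iff hs hz hG) ⟨m0, fun m hm u hn => ?_⟩) hX
    exact (bad_chg hs (hm0' m hm) hn).1
  · refine WX_le_of hs hg ha cg hh (f X) _ (inv_neg hs hg ha cg hh (f X) X _ _
      ((si_good hs hg ha cg hh X).trans (le_WX X)) hfX (fun z => WX_odd _ _)
      (fun m u z hz hG => (good_iff hs hz hG).symm) ⟨m0, fun m hm u hn => ?_⟩) hfX
    exact (bad_chg hs (hm0' m hm) hn).2

/-- Invariance under the map. -/
theorem WX_all (X : R) : TLe (WX f X) (WX f (f X)) ∧ TLe (WX f (f X)) (WX f X) := by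
  by_cases hP : Per vr (mr f) X
  · obtain ⟨p, hp0, hp, hcyc⟩ := per_cycle (dyn f) hP
    have key : ∀ n, n + 1 ≤ p → TLe (WX f (f X)) (WX f (mr f (n + 1) X)) ∧
        TLe (WX f (mr f (n + 1) X)) (WX f (f X)) := by
      intro n
      induction n with
      | zero => exact fun _ => ⟨TuringReducible.refl _, TuringReducible.refl _⟩
      | succ n ih =>
        intro hn
        obtain ⟨h1, h2⟩ := ih (by omega)
        obtain ⟨h3, h4⟩ := WX_eqv hs hg ha cg hh (mr f (n + 1) X)
          (hcyc (n + 1) (by omega) (by omega))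
        have e : mr f (n + 1 + 1) X = f (mr f (n + 1) X) := Function.iterate_succ_apply' f _ X
        rw [e]
        exact ⟨TuringReducible.trans h1 h3, TuringReducible.trans h4 h2⟩
    have h5 := key (p - 1) (by omega)
    rw [show p - 1 + 1 = p by omega, hp] at h5
    exact ⟨h5.2, h5.1⟩
  · exact WX_eqv hs hg ha cg hh X hP

end inv

/-- For a total computable functional `f` with finitely many total computable sections, whose
ranges cover the space, there is a solution of Post's problem which is invariant under `f`. -/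
theorem main (r : ℕ) (δ : ℕ → List Bool → Bool) (u : ℕ → ℕ) (δ' : ℕ → ℕ → List Bool → Bool)
    (u' : ℕ → ℕ → ℕ) (hδ : Computable₂ δ) (hu : Computable u) (hh : Computable₂ fun c τ =>
      GG (δ' c) (u' c) τ) (hs : Sec (TT δ u) (fun c => TT (δ' c) (u' c)) r) : ∃ e : ℕ,
    (∀ X : R, TLe X (chr (WE X e)) ∧ ¬ TLe (chr (WE X e)) X ∧
      TLe (chr (WE X e)) (jump X) ∧ ¬ TLe (jump X) (chr (WE X e)) ∧
      TLe (jump (chr (WE X e))) (jump X)) ∧
    ∀ X : R, TLe (chr (WE X e)) (chr (WE (TT δ u X) e)) ∧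
      TLe (chr (WE (TT δ u X) e)) (chr (WE X e)) := by
  have hg := apx_GG (δ := δ) (u := u)
  have ha : ∀ c < r, Apx ((fun c τ => GG (δ' c) (u' c) τ) c) ((fun c => TT (δ' c) (u' c)) c) :=
    fun c _ => apx_GG
  have cg := comp_GG hδ hu
  obtain ⟨e, he⟩ := exists_index hs hg ha cg hh
  refine ⟨e, fun X => ?_, fun X => ?_⟩
  · rw [he X, chr_WX]
    have hl := low hs hg ha cg hh X
    exact ⟨le_WX X, not_WX_le hs X, WX_le_jump hs hg ha cg hh X,
      fun h => not_jump_le _ (TuringReducible.trans hl h), hl⟩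
  · rw [he, he, chr_WX, chr_WX]
    exact WX_all hs hg ha cg hh X

end

end Pool.Agent.TH769.LH
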