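import Pool.Agent.TH769.LH.Cst

set_option autoImplicit false

/-!
The classes in finite terms, and the construction on nodes.
-/

namespace Pool.Agent.TH769.LH

open Encodable Pool.Agent.Helper227 Pool.Agent.H548R2.Post
open Nat.Partrec (Code)
open Pool.Agent.TH769.CD (jp jp_congr bdd_lt)
open Pool.Agent.TH769.ZA (val val_congr val_eq val_le)
open Pool.Agent.TH769.TL (Ok Chg IsSt Cand Act Step VZ Cls Sys)

/-- a bound for the distance to the representative -/
def bb (m : ℕ) : ℕ := (m + 1) * m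

/-- the members of the class of `p` are among these -/
noncomputable def mem (f : R → R) (j : ℕ → R → R) (r m s : ℕ) (p : R) (l w : ℕ) : R :=
  cat j r l w (mr f (gg vr (mr f) m s p) p)

section

variable {f : R → R} {j : ℕ → R → R} {r : ℕ}

theorem ex_class (h : Sec f j r) {m s : ℕ} {p : R} {φ : R → Prop} :
    (∃ q, QQ f m s p q ∧ φ q) ↔ ∃ l < bb m + 1, ∃ w < r ^ l,
      gg vr (mr f) m s (mem f j r m s p l w) = l ∧ φ (mem f j r m s p l w) := by
  constructor
  · rintro ⟨q, h1, h2⟩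
    obtain ⟨w, h3, h4⟩ := exists_cat h (gg vr (mr f) m s q) q
    have h5 : mem f j r m s p (gg vr (mr f) m s q) w = q := by
      unfold mem
      rw [show mr f (gg vr (mr f) m s p) p = mr f (gg vr (mr f) m s q) q from h1]
      exact h4
    refine ⟨gg vr (mr f) m s q, by have := gg_le vr (mr f) m s q; unfold bb; omega, w, h3, ?_⟩
    rw [h5]
    exact ⟨rfl, h2⟩
  · rintro ⟨l, -, w, -, h1, h2⟩
    refine ⟨_, ?_, h2⟩
    unfold QQ
    rw [h1]
    exact (mr_cat h _ _ _).symm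

theorem all_class (h : Sec f j r) {m s : ℕ} {p : R} {φ : R → Prop} :
    (∀ q, QQ f m s p q → φ q) ↔ ∀ l < bb m + 1, ∀ w < r ^ l,
      gg vr (mr f) m s (mem f j r m s p l w) = l → φ (mem f j r m s p l w) := by
  have h := not_congr (ex_class h (m := m) (s := s) (p := p) (φ := fun q => ¬ φ q))
  push Not at h
  exact h

theorem chg_fin (h : Sec f j r) {m s : ℕ} {p : R} : Chg (QQ f) (DC f) m s p ↔
    (∃ l < bb m + 1, ∃ w < r ^ l, gg vr (mr f) m s (mem f j r m s p l w) = l ∧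
      DC f m s (mem f j r m s p l w)) ∨
    ∃ l < bb m + 1, ∃ w < r ^ l, gg vr (mr f) m (s - 1) (mem f j r m (s - 1) p l w) = l ∧
      DC f m s (mem f j r m (s - 1) p l w) := by
  unfold Chg
  rw [ex_class h, ex_class h]

/-- the finite form of the conditions for a candidate -/
def FC (r m s z : ℕ) (St : ℕ → Prop) (G : ℕ → ℕ → Prop) (EE W : ℕ → ℕ → ℕ → Prop)
    (C : ℕ → ℕ → ℕ → ℕ → Prop) : Prop :=
  z < s ∧ (∃ u < s + 1, St u ∧ z.unpair.1 = Nat.pair m u) ∧
  (∃ l < bb m + 1, ∃ v < r ^ l, G l v ∧ (EE l v z ∧ ∀ y < s, W l v y → ¬ EE l v y)) ∧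
  ∀ l < bb m + 1, ∀ v < r ^ l, G l v → ∀ e < m,
    (∃ u < s + 1, C e u l v) → ∃ u < z + 1, u < s + 1 ∧ C e u l v

theorem cand_FC (h : Sec f j r) {V : ℕ → R → ℕ → Prop} {m s z : ℕ} {p : R} :
    Cand EY CY (QQ f) (DC f) V m s p z ↔ FC r m s z (fun u => IsSt (QQ f) (DC f) m s p u)
      (fun l v => gg vr (mr f) m s (mem f j r m s p l v) = l)
      (fun l v y => En s m y (mem f j r m s p l v))
      (fun l v y => V s (mem f j r m s p l v) y)
      (fun e u l v => CY s e u (mem f j r m s p l v) (V s (mem f j r m s p l v))) := by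
  unfold Cand FC Ok
  rw [ex_class h (φ := fun w => EY s m z w ∧ ∀ y < s, V s w y → ¬ EY s m y w), all_class h]
  rfl

theorem FC_congr {r m s z : ℕ} {St St' : ℕ → Prop} {G G' : ℕ → ℕ → Prop}
    {EE W EE' W' : ℕ → ℕ → ℕ → Prop} {C C' : ℕ → ℕ → ℕ → ℕ → Prop}
    (h1 : ∀ u < s + 1, (St u ↔ St' u))
    (h2 : ∀ l < bb m + 1, ∀ v < r ^ l, (G l v ↔ G' l v))
    (h3 : ∀ l < bb m + 1, ∀ v < r ^ l, ∀ y, (EE l v y ↔ EE' l v y))
    (h4 : ∀ l < bb m + 1, ∀ v < r ^ l, ∀ y < s, (W l v y ↔ W' l v y))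
    (h5 : ∀ l < bb m + 1, ∀ v < r ^ l, ∀ e, ∀ u < s + 1, (C e u l v ↔ C' e u l v)) :
    FC r m s z St G EE W C ↔ FC r m s z St' G' EE' W' C' := by
  unfold FC
  refine and_congr Iff.rfl (and_congr ?_ (and_congr ?_ ?_))
  · exact exists_congr fun u => and_congr_right fun hu => by rw [h1 u hu]
  · refine exists_congr fun l => and_congr_right fun hl => exists_congr fun v =>
      and_congr_right fun hv => and_congr (h2 l hl v hv) (and_congr (h3 l hl v hv z) ?_)
    exact forall_congr' fun y => forall_congr' fun hy => imp_congr (h4 l hl v hv y hy)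
      (not_congr (h3 l hl v hv y))
  · refine forall_congr' fun l => forall_congr' fun hl => forall_congr' fun v =>
      forall_congr' fun hv => imp_congr (h2 l hl v hv) (forall_congr' fun e =>
        forall_congr' fun _ => imp_congr ?_ ?_)
    · exact exists_congr fun u => and_congr_right fun hu => h5 l hl v hv e u hu
    · exact exists_congr fun u => and_congr_right fun _ => and_congr_right fun hu =>
        h5 l hl v hv e u hu

end

/-! Nodes. -/

/-- the node `(a, l, w)` stands for the word `w` of length `l` applied to the `a`-th iterate -/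
abbrev Nd : Type := ℕ × ℕ × ℕ

def rk (p : Nd) : ℕ := p.1 + p.2.1

def mvN (r i : ℕ) (p : Nd) : Nd := (p.1 + (i - p.2.1), p.2.1 - i, p.2.2 / r ^ i)

def ctN (r l w : ℕ) (p : Nd) : Nd := (p.1, l + p.2.1, w + r ^ l * p.2.2)

def okN (r : ℕ) (p : Nd) : Prop := p.2.2 < r ^ p.2.1

/-- the oracle at a node -/
def ph (f : R → R) (j : ℕ → R → R) (r : ℕ) (X : R) (p : Nd) : R := cat j r p.2.1 p.2.2 (mr f p.1 X)

def vY (Y : Nd → R) (m : ℕ) (p : Nd) : ℕ := val (Y p) m

noncomputable def gN (r : ℕ) (Y : Nd → R) (m s : ℕ) (p : Nd) : ℕ := gg (vY Y) (mvN r) m s p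

noncomputable def memN (r : ℕ) (Y : Nd → R) (m s : ℕ) (p : Nd) (l w : ℕ) : Nd :=
  ctN r l w (mvN r (gN r Y m s p) p)

def DN (r : ℕ) (Y : Nd → R) (m s : ℕ) (p : Nd) : Prop := gN r Y m (s - 1) p ≠ gN r Y m s p

def ChgN (r : ℕ) (Y : Nd → R) (m s : ℕ) (p : Nd) : Prop :=
  (∃ l < bb m + 1, ∃ w < r ^ l, gN r Y m s (memN r Y m s p l w) = l ∧
    DN r Y m s (memN r Y m s p l w)) ∨
  ∃ l < bb m + 1, ∃ w < r ^ l, gN r Y m (s - 1) (memN r Y m (s - 1) p l w) = l ∧
    DN r Y m s (memN r Y m (s - 1) p l w)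

def StN (r : ℕ) (Y : Nd → R) (m s : ℕ) (p : Nd) (u : ℕ) : Prop :=
  (u = 0 ∨ ChgN r Y m u p) ∧ ∀ s' < s + 1, u < s' → ¬ ChgN r Y m s' p

def FN (r : ℕ) (Y : Nd → R) (V : ℕ → Nd → ℕ → Prop) (m s : ℕ) (p : Nd) (z : ℕ) : Prop :=
  FC r m s z (fun u => StN r Y m s p u) (fun l w => gN r Y m s (memN r Y m s p l w) = l)
    (fun l w y => En s m y (Y (memN r Y m s p l w)))
    (fun l w y => V s (memN r Y m s p l w) y)
    (fun e u l w => CY s e u (Y (memN r Y m s p l w)) (V s (memN r Y m s p l w)))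

def SN (r : ℕ) (Y : Nd → R) (V : ℕ → Nd → ℕ → Prop) (s : ℕ) (p : Nd) (z : ℕ) : Prop :=
  ∃ m < s, FN r Y V m s p z ∧ ∀ z' < z, ¬ FN r Y V m s p z'

/-- the oracles at the nodes are right up to rank `K` and length `N` -/
def GdY (f : R → R) (j : ℕ → R → R) (r : ℕ) (X : R) (Y : Nd → R) (K N : ℕ) : Prop :=
  ∀ p, okN r p → rk p ≤ K → ∀ i < N, Y p i = ph f j r X p i

section

variable {f : R → R} {j : ℕ → R → R} {r : ℕ} {X : R} {Y : Nd → R} {K N : ℕ}

theorem ph_mv (h : Sec f j r) (X : R) (i : ℕ) (p : Nd) :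
    ph f j r X (mvN r i p) = mr f i (ph f j r X p) := by
  obtain ⟨a, l, w⟩ := p
  unfold ph mvN
  simp only
  rcases Nat.le_total i l with hi | hi
  · rw [cat_le h hi, show i - l = 0 by omega, Nat.add_zero]
  · rw [cat_gt h hi, show l - i = 0 by omega, (dyn f).mm, Nat.add_comm]
    rfl

theorem ph_ct (hr : 0 < r) (X : R) {l w : ℕ} (hw : w < r ^ l) (p : Nd) :
    ph f j r X (ctN r l w p) = cat j r l w (ph f j r X p) := cat_add _ _ _ _ _ hw hr

theorem rk_mv (i : ℕ) (p : Nd) : rk (mvN r i p) ≤ rk p + i := by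
  unfold rk mvN
  simp only
  omega

theorem ok_mv (hr : 0 < r) (i : ℕ) (p : Nd) (h : okN r p) : okN r (mvN r i p) := by
  unfold okN mvN at *
  simp only
  rcases Nat.le_total i p.2.1 with hi | hi
  · refine Nat.div_lt_of_lt_mul ?_
    rwa [← pow_add, show i + (p.2.1 - i) = p.2.1 by omega]
  · have h1 : p.2.2 < r ^ i := h.trans_le (Nat.pow_le_pow_right hr hi)
    rw [Nat.div_eq_of_lt h1]
    exact Nat.pow_pos hr

theorem ok_ct {l w : ℕ} (hw : w < r ^ l) (p : Nd) (h : okN r p) : okN r (ctN r l w p) := by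
  unfold okN ctN at *
  simp only
  have h1 : r ^ l * (p.2.2 + 1) ≤ r ^ l * r ^ p.2.1 := Nat.mul_le_mul le_rfl h
  rw [pow_add]
  rw [Nat.mul_add, Nat.mul_one] at h1
  omega

theorem tr_of (h : Sec f j r) (hY : GdY f j r X Y K N) :
    Tr vr (mr f) (vY Y) (mvN r) (ph f j r X) rk (okN r) K N where
  hv p ho hp m hm := val_congr fun i hi => hY p ho hp i (by omega)
  hm i p := ph_mv h X i p
  hr i p := rk_mv i p
  hok i p ho := ok_mv h.pos i p ho

theorem gN_eq (h : Sec f j r) (hY : GdY f j r X Y K N) {m s : ℕ} {p : Nd} (hm : m ≤ N)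
    (hs : s ≤ N) (ho : okN r p) (hp : rk p + 3 * N ≤ K) :
    gN r Y m s p = gg vr (mr f) m s (ph f j r X p) := gg_tr (tr_of h hY) hm hs hp ho

theorem ph_mem (h : Sec f j r) (hY : GdY f j r X Y K N) {m s : ℕ} {p : Nd} (hm : m ≤ N)
    (hs : s ≤ N) (ho : okN r p) (hp : rk p + 3 * N ≤ K) {l w : ℕ} (hw : w < r ^ l) :
    ph f j r X (memN r Y m s p l w) = mem f j r m s (ph f j r X p) l w := by
  unfold memN mem
  rw [ph_ct h.pos X hw, ph_mv h, gN_eq h hY hm hs ho hp]

theorem rk_mem {m s : ℕ} {p : Nd} {l w : ℕ} (hl : l < bb m + 1) :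
    rk (memN r Y m s p l w) ≤ rk p + 2 * bb m := by
  have h1 := rk_mv (r := r) (gN r Y m s p) p
  have h2 : gN r Y m s p ≤ bb m := gg_le _ _ _ _ _
  unfold memN
  have h3 : ∀ q, rk (ctN r l w q) = l + rk q := fun q => by
    unfold rk ctN
    simp only
    omega
  rw [h3]
  omega

theorem ok_mem (hr : 0 < r) {m s : ℕ} {p : Nd} {l w : ℕ} (hw : w < r ^ l) (h : okN r p) :
    okN r (memN r Y m s p l w) := ok_ct hw _ (ok_mv hr _ _ h)

theorem DN_iff (h : Sec f j r) (hY : GdY f j r X Y K N) {m s : ℕ} {p : Nd} (hm : m ≤ N)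
    (hs : s ≤ N) (ho : okN r p) (hp : rk p + 3 * N ≤ K) :
    DN r Y m s p ↔ DC f m s (ph f j r X p) := by
  unfold DN DC
  rw [gN_eq h hY hm hs ho hp, gN_eq h hY hm (by omega) ho hp]

theorem ChgN_iff (h : Sec f j r) (hY : GdY f j r X Y K N) {m s : ℕ} {p : Nd} (hm : m ≤ N)
    (hs : s ≤ N) (ho : okN r p) (hp : rk p + 2 * bb m + 3 * N ≤ K) :
    ChgN r Y m s p ↔ Chg (QQ f) (DC f) m s (ph f j r X p) := by
  rw [chg_fin h]
  unfold ChgN
  refine or_congr ?_ ?_
  · refine exists_congr fun l => and_congr_right fun hl => exists_congr fun w =>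
      and_congr_right fun hw => ?_
    have hrk := rk_mem (r := r) (Y := Y) (s := s) (p := p) (w := w) hl
    have hok := ok_mem (Y := Y) (m := m) (s := s) h.pos hw ho
    rw [gN_eq h hY hm hs hok (by omega), DN_iff h hY hm hs hok (by omega),
      ph_mem h hY hm hs ho (by omega) hw]
  · refine exists_congr fun l => and_congr_right fun hl => exists_congr fun w =>
      and_congr_right fun hw => ?_
    have hrk := rk_mem (r := r) (Y := Y) (s := s - 1) (p := p) (w := w) hl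
    have hok := ok_mem (Y := Y) (m := m) (s := s - 1) h.pos hw ho
    rw [gN_eq h hY hm (by omega) hok (by omega), DN_iff h hY hm hs hok (by omega),
      ph_mem h hY hm (by omega) ho (by omega) hw]

theorem StN_iff (h : Sec f j r) (hY : GdY f j r X Y K N) {m s u : ℕ} {p : Nd} (hm : m ≤ N)
    (hs : s ≤ N) (hu : u ≤ N) (ho : okN r p) (hp : rk p + 2 * bb m + 3 * N ≤ K) :
    StN r Y m s p u ↔ IsSt (QQ f) (DC f) m s (ph f j r X p) u := by
  unfold StN IsSt
  rw [ChgN_iff h hY hm hu ho hp]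
  refine and_congr Iff.rfl (forall_congr' fun s' => forall_congr' fun hs' => ?_)
  rw [ChgN_iff h hY hm (by omega) ho hp]

theorem FN_iff (h : Sec f j r) (hY : GdY f j r X Y K N) {V : ℕ → Nd → ℕ → Prop}
    {V' : ℕ → R → ℕ → Prop} {m s z : ℕ} {p : Nd} (hm : m ≤ N) (hs : s ≤ N) (ho : okN r p)
    (hp : rk p + 2 * bb m + 3 * N ≤ K)
    (hV : ∀ q, okN r q → rk q ≤ rk p + 2 * bb m → ∀ y < s, (V s q y ↔ V' s (ph f j r X q) y)) :
    FN r Y V m s p z ↔ Cand EY CY (QQ f) (DC f) V' m s (ph f j r X p) z := by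
  rw [cand_FC h]
  unfold FN
  have hrk := fun (l w : ℕ) (hl : l < bb m + 1) =>
    rk_mem (r := r) (Y := Y) (s := s) (p := p) (w := w) hl
  have hok := fun (l w : ℕ) (hw : w < r ^ l) => ok_mem (Y := Y) (m := m) (s := s) h.pos hw ho
  have hph := fun (l w : ℕ) (hw : w < r ^ l) => ph_mem h hY hm hs ho (by omega) hw
  have hdig : ∀ l < bb m + 1, ∀ w < r ^ l, ∀ i < N, Y (memN r Y m s p l w) i =
      mem f j r m s (ph f j r X p) l w i := by
    intro l hl w hw i hi
    have h1 := hrk l w hl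
    rw [hY _ (hok l w hw) (by omega) i hi, hph l w hw]
  have hVV : ∀ l < bb m + 1, ∀ w < r ^ l, ∀ y < s, (V s (memN r Y m s p l w) y ↔
      V' s (mem f j r m s (ph f j r X p) l w) y) := by
    intro l hl w hw y hy
    rw [hV _ (hok l w hw) (hrk l w hl) y hy, hph l w hw]
  refine FC_congr (fun u hu => StN_iff h hY hm hs (by omega) ho (by omega))
    (fun l hl w hw => ?_) (fun l hl w hw y => ?_) hVV (fun l hl w hw e u hu => ?_)
  · have h1 := hrk l w hl
    rw [gN_eq h hY hm hs (hok l w hw) (by omega), hph l w hw]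
  · exact En_congr fun i hi => hdig l hl w hw i (by omega)
  · exact CY_congr (fun i hi => hdig l hl w hw i (by omega))
      (fun y hy => hVV l hl w hw y (by omega))

theorem bb_le {m s : ℕ} (h : m < s) : bb m ≤ s * s := by
  unfold bb
  exact Nat.mul_le_mul (by omega) (by omega)

theorem SN_iff (h : Sec f j r) (hY : GdY f j r X Y K N) {V : ℕ → Nd → ℕ → Prop}
    {V' : ℕ → R → ℕ → Prop} {s z : ℕ} {p : Nd} (hs : s ≤ N) (ho : okN r p)
    (hp : rk p + 2 * (s * s) + 3 * N ≤ K)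
    (hV : ∀ q, okN r q → rk q ≤ rk p + 2 * (s * s) → ∀ y < s,
      (V s q y ↔ V' s (ph f j r X q) y)) :
    SN r Y V s p z ↔ Step EY CY (QQ f) (DC f) V' s (ph f j r X p) z := by
  unfold SN Step Act
  refine exists_congr fun m => and_congr_right fun hm => ?_
  have hb := bb_le hm
  have hc : ∀ z, (FN r Y V m s p z ↔ Cand EY CY (QQ f) (DC f) V' m s (ph f j r X p) z) :=
    fun z => FN_iff h hY (by omega) hs ho (by omega) fun q hq hr y hy =>
      hV q hq (by omega) y hy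
  exact and_congr (hc z) (forall_congr' fun z' => forall_congr' fun _ => not_congr (hc z'))

end

end Pool.Agent.TH769.LH
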