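import Pool.Agent.TH769.LH.Prm
import Pool.Agent.TH769.ZA.Chn

set_option autoImplicit false

/-!
Finite tables for the construction.
-/

namespace Pool.Agent.TH769.LH

open Encodable Pool.Agent.Helper227 Pool.Agent.H548R2.Post
open Nat.Partrec (Code)
open Pool.Agent.TH769.CD (jp jp_congr bdd_lt pf_add pf_mul pf_div pf_mod pf_pow pf_getD pf_take
  pf_append pf_cons pf_length pf_range pf_natPair pf_unpair pf_encode pf_testBit pf_xorb pf_andb
  pf_hlt pf_xor pp_exlt pp_alllt pp_imp pp_eq pp_le pp_lt pp_mem pf_decide pf_pre pp_En pf_ext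
  ext_pre_eq)
open Pool.Agent.TH769.ZA (val pf_val pf_sub Apx Apx.iter comp_iter si_gen)
open Pool.Agent.TH769.TL (gr VZ Step Act Cand Chg)

attribute [local fun_prop] Primrec
attribute [local fun_prop] Primrec.id Primrec.const Primrec.comp Primrec.pair Primrec.fst Primrec.snd
attribute [local fun_prop] pf_add pf_mul pf_div pf_mod pf_pow pf_getD pf_take pf_append pf_cons
  pf_length pf_range pf_natPair pf_unpair pf_encode pf_testBit pf_xorb pf_andb pf_hlt pf_xor pf_sub
  pf_mvN pf_ctN pf_bb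

/-- the rows of the finite data -/
abbrev Tb : Type := List (List Bool)

def YO (O : Tb) (p : Nd) : R := ext (O.getD (encode p) [])

/-- the relation coded by a list of numbers -/
def mm (T : List ℕ) (s : ℕ) (p : Nd) (z : ℕ) : Prop := Nat.pair (encode p) (Nat.pair s z) ∈ T

def kk (s : ℕ) : ℕ := 2 * (s * s * s)

theorem kk_step {s' s : ℕ} (h : s' < s) : kk s' + 2 * (s * s) ≤ kk s := by
  unfold kk
  have h1 : s' * s' * s' ≤ s * s * s' :=
    Nat.mul_le_mul (Nat.mul_le_mul h.le h.le) le_rfl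
  have h2 : s * s * (s' + 1) ≤ s * s * s := Nat.mul_le_mul le_rfl h
  have h3 : s * s * (s' + 1) = s * s * s' + s * s := by ring
  omega

/-- the rank up to which the oracles at the nodes are used -/
def KY (t : ℕ) : ℕ := kk t + 2 * (t * t) + 3 * t

/-- the table `T` is right up to stage `t` -/
def Good (r : ℕ) (O : Tb) (T : List ℕ) (t : ℕ) : Prop :=
  ∀ s < t, ∀ a < kk t + 1, ∀ l < kk t + 1, ∀ w < r ^ l, a + l + kk s ≤ kk t → ∀ z < t,
    (mm T s (a, l, w) z ↔ SN r (YO O) (VZ (mm T)) s (a, l, w) z)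

theorem AA_lt {f : R → R} {s : ℕ} {p : R} {z : ℕ} (h : AA f s p z) : z < s := by
  obtain ⟨m, -, h1⟩ := (AA_eq s p z).1 h
  exact h1.1.1

section

variable {f : R → R} {j : ℕ → R → R} {r : ℕ} {X : R} {O : Tb} {t : ℕ}

theorem sn_aa (h : Sec f j r) (hY : GdY f j r X (YO O) (KY t) t) {V : ℕ → Nd → ℕ → Prop}
    {s : ℕ} (hs : s < t) {p : Nd} (ho : okN r p) (hp : rk p + kk s ≤ kk t) {z : ℕ}
    (hV : ∀ q, okN r q → rk q ≤ rk p + 2 * (s * s) → ∀ y < s,
      (V s q y ↔ VZ (AA f) s (ph f j r X q) y)) :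
    SN r (YO O) V s p z ↔ AA f s (ph f j r X p) z := by
  rw [AA_eq]
  refine SN_iff h hY hs.le ho ?_ hV
  have h1 : s * s ≤ t * t := Nat.mul_le_mul hs.le hs.le
  unfold KY
  omega

theorem good_mm (h : Sec f j r) (hY : GdY f j r X (YO O) (KY t) t) {T : List ℕ}
    (hG : Good r O T t) (s : ℕ) : s < t → ∀ p, okN r p → rk p + kk s ≤ kk t → ∀ z < t,
      (mm T s p z ↔ AA f s (ph f j r X p) z) := by
  induction s using Nat.strong_induction_on with
  | _ s ih =>
    intro hs p ho hp z hz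
    obtain ⟨a, l, w⟩ := p
    have hp' : a + l + kk s ≤ kk t := hp
    rw [hG s hs a (by omega) l (by omega) w ho hp' z hz]
    refine sn_aa h hY hs ho hp fun q hq hr y hy => ?_
    refine exists_congr fun s' => and_congr_right fun hs' => ?_
    have := kk_step hs'
    exact ih s' hs' (by omega) q hq (by omega) y (by omega)

theorem enc_nd (p : Nd) : encode p = Nat.pair p.1 (Nat.pair p.2.1 p.2.2) := rfl

theorem good_ex (h : Sec f j r) (hY : GdY f j r X (YO O) (KY t) t) : ∃ T, Good r O T t := by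
  classical
  let S : Set ℕ := {c | ∃ p : Nd, ∃ s z : ℕ, (okN r p ∧ rk p ≤ kk t ∧ s < t ∧ z < t) ∧
    AA f s (ph f j r X p) z ∧ c = Nat.pair (encode p) (Nat.pair s z)}
  have hS : S.Finite := by
    have h1 : (Set.Finite (((Finset.range (kk t + 1) ×ˢ Finset.range (kk t + 1) ×ˢ
        Finset.range (r ^ kk t)) ×ˢ Finset.range t ×ˢ Finset.range t : Finset (Nd × ℕ × ℕ)) :
        Set (Nd × ℕ × ℕ))) := Finset.finite_toSet _
    refine (h1.image fun x => Nat.pair (encode x.1) (Nat.pair x.2.1 x.2.2)).subset ?_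
    rintro c ⟨p, s, z, ⟨h2, h3, h4, h5⟩, -, rfl⟩
    refine ⟨(p, s, z), ?_, rfl⟩
    have h6 : p.2.2 < r ^ kk t := lt_of_lt_of_le h2 (Nat.pow_le_pow_right h.pos (by
      unfold rk at h3; omega))
    unfold rk at h3
    simp only [Finset.coe_product, Set.mem_prod, Finset.coe_range, Set.mem_Iio]
    omega
  refine ⟨hS.toFinset.toList, ?_⟩
  have hmm : ∀ s p z, okN r p → rk p ≤ kk t → s < t → z < t →
      (mm hS.toFinset.toList s p z ↔ AA f s (ph f j r X p) z) := by
    intro s p z h2 h3 h4 h5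
    unfold mm
    rw [Finset.mem_toList, Set.Finite.mem_toFinset]
    constructor
    · rintro ⟨p', s', z', -, h6, h7⟩
      have e1 := congrArg Nat.unpair h7
      rw [Nat.unpair_pair, Nat.unpair_pair] at e1
      have e2 : p = p' := Encodable.encode_injective (congrArg Prod.fst e1)
      have e3 := congrArg Nat.unpair (congrArg Prod.snd e1)
      simp only [Nat.unpair_pair] at e3
      have e4 : s = s' := congrArg Prod.fst e3
      have e5 : z = z' := congrArg Prod.snd e3
      subst e2 e4 e5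
      exact h6
    · intro h6
      exact ⟨p, s, z, ⟨h2, h3, h4, h5⟩, h6, rfl⟩
  intro s hs a ha l hl w hw hk z hz
  have hok : okN r (a, l, w) := hw
  have hrk : rk (a, l, w) + kk s ≤ kk t := hk
  rw [hmm s (a, l, w) z hok (by omega) hs hz]
  refine (sn_aa h hY hs hok hrk fun q hq hr y hy => ?_).symm
  refine exists_congr fun s' => and_congr_right fun hs' => ?_
  have h2 := kk_step hs'
  have h3 : ∀ s', s' < s → rk q ≤ kk t := fun s' hs' => by
    have := kk_step hs'
    omega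
  exact hmm s' q y hq (h3 s' hs') (by omega) (by omega)

/-- The finite version of the statement that `z` is in the set of the oracle before stage `t`. -/
def VF (T : List ℕ) (t z : ℕ) : Prop := z < t ∧ VZ (mm T) t (0, 0, 0) z

theorem VF_iff (h : Sec f j r) (hY : GdY f j r X (YO O) (KY t) t) {T : List ℕ}
    (hG : Good r O T t) {z : ℕ} : VF T t z ↔ VZ (AA f) t X z := by
  have hok : okN r (0, 0, 0) := by
    unfold okN
    simp
  have hrk : rk (0, 0, 0) = 0 := rfl
  have hmono : ∀ s' < t, kk s' ≤ kk t := fun s' hs' => by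
    have := kk_step hs'
    omega
  constructor
  · rintro ⟨h1, s', hs', h2⟩
    refine ⟨s', hs', ?_⟩
    have := hmono s' hs'
    exact (good_mm h hY hG s' hs' _ hok (by omega) z h1).1 h2
  · rintro ⟨s', hs', h2⟩
    have h3 := AA_lt h2
    have := hmono s' hs'
    exact ⟨by omega, s', hs', (good_mm h hY hG s' hs' _ hok (by omega) z (by omega)).2 h2⟩

end

/-! Rows. -/

def acc (r : ℕ) (h : ℕ → List Bool → List Bool) (l w : ℕ) (τ : List Bool) : ℕ → List Bool
  | 0 => τ
  | t + 1 => h ((w / r ^ (l - 1 - t)) % r) (acc r h l w τ t)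

def row (r : ℕ) (g : List Bool → List Bool) (h : ℕ → List Bool → List Bool) (σ : List Bool)
    (p : Nd) : List Bool := acc r h p.2.1 p.2.2 (g^[p.1] σ) p.2.1

def dN (n : ℕ) : Nd := (n.unpair.1, n.unpair.2.unpair.1, n.unpair.2.unpair.2)

theorem dN_enc (p : Nd) : dN (encode p) = p := by
  unfold dN
  rw [enc_nd]
  simp

def On (r : ℕ) (g : List Bool → List Bool) (h : ℕ → List Bool → List Bool) (σ : List Bool) :
    ℕ → Tb
  | 0 => []
  | n + 1 => On r g h σ n ++ [row r g h σ (dN n)]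

/-- a bound for the codes of the nodes of rank at most `K` -/
def BK (r K : ℕ) : ℕ := Nat.pair (K + 1) (Nat.pair (K + 1) (r ^ K))

/-- the rows are long -/
def Lg (O : Tb) (K N : ℕ) : Prop := ∀ k < K, N ≤ (O.getD k []).length

section rows

variable {f : R → R} {j : ℕ → R → R} {r : ℕ} {X : R} {g : List Bool → List Bool}
  {h : ℕ → List Bool → List Bool}

theorem On_length (σ : List Bool) (n : ℕ) : (On r g h σ n).length = n := by
  induction n with
  | zero => rfl
  | succ n ih => rw [On, List.length_append, ih]; rfl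

theorem On_getD (σ : List Bool) {n k : ℕ} (hk : k < n) :
    (On r g h σ n).getD k [] = row r g h σ (dN k) := by
  induction n with
  | zero => omega
  | succ n ih =>
    rw [On]
    rcases Nat.lt_succ_iff_lt_or_eq.1 hk with h1 | h1
    · rw [List.getD_append _ _ _ _ (by rw [On_length]; exact h1), ih h1]
    · subst h1
      rw [List.getD_append_right _ _ _ _ (by rw [On_length]), On_length, Nat.sub_self]
      rfl

theorem cat_step {l t : ℕ} (w : ℕ) (Z : R) (ht : t + 1 ≤ l) :
    cat j r (t + 1) (w / r ^ (l - (t + 1))) Z =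
      j ((w / r ^ (l - 1 - t)) % r) (cat j r t (w / r ^ (l - t)) Z) := by
  rw [cat, Nat.div_div_eq_div_mul, ← pow_succ, show l - (t + 1) + 1 = l - t by omega,
    show l - (t + 1) = l - 1 - t by omega]

theorem acc_ok (hr : 0 < r) (ha : ∀ c < r, Apx (h c) (j c)) (l w : ℕ) (Z : R) (L t : ℕ)
    (ht : t ≤ l) : ∃ L', acc r h l w (pre Z L) t = pre (cat j r t (w / r ^ (l - t)) Z) L' := by
  induction t with
  | zero => exact ⟨L, rfl⟩
  | succ t ih =>
    obtain ⟨L1, h1⟩ := ih (by omega)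
    rw [acc, h1, cat_step w Z ht]
    exact (ha _ (Nat.mod_lt _ hr)).ok _ _

theorem acc_long (hr : 0 < r) (ha : ∀ c < r, Apx (h c) (j c)) (l w : ℕ) (Z : R) (t : ℕ)
    (ht : t ≤ l) (N : ℕ) : ∃ M, ∀ L ≥ M, N ≤ (acc r h l w (pre Z L) t).length := by
  induction t generalizing N with
  | zero => exact ⟨N, fun L hL => by rw [acc, length_pre]; exact hL⟩
  | succ t ih =>
    obtain ⟨M1, h1⟩ := (ha _ (Nat.mod_lt (w / r ^ (l - 1 - t)) hr)).long
      (cat j r t (w / r ^ (l - t)) Z) N
    obtain ⟨M, hM⟩ := ih (by omega) M1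
    refine ⟨M, fun L hL => ?_⟩
    have h2 := hM L hL
    obtain ⟨L1, h3⟩ := acc_ok hr ha l w Z L t (by omega)
    rw [h3, length_pre] at h2
    rw [acc, h3]
    exact h1 L1 h2

theorem row_ok (hr : 0 < r) (hg : Apx g f) (ha : ∀ c < r, Apx (h c) (j c)) (L : ℕ) (p : Nd) :
    ∃ L', row r g h (pre X L) p = pre (ph f j r X p) L' := by
  obtain ⟨L1, h1⟩ := (hg.iter p.1).ok X L
  unfold row
  rw [h1]
  obtain ⟨L2, h2⟩ := acc_ok hr ha p.2.1 p.2.2 (f^[p.1] X) L1 p.2.1 le_rfl
  rw [Nat.sub_self, pow_zero, Nat.div_one] at h2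
  exact ⟨L2, h2⟩

theorem row_long (hr : 0 < r) (hg : Apx g f) (ha : ∀ c < r, Apx (h c) (j c)) (p : Nd) (N : ℕ) :
    ∃ M, ∀ L ≥ M, N ≤ (row r g h (pre X L) p).length := by
  obtain ⟨M1, h1⟩ := acc_long hr ha p.2.1 p.2.2 (f^[p.1] X) p.2.1 le_rfl N
  obtain ⟨M, hM⟩ := (hg.iter p.1).long X M1
  refine ⟨M, fun L hL => ?_⟩
  have h2 := hM L hL
  obtain ⟨L1, h3⟩ := (hg.iter p.1).ok X L
  rw [h3, length_pre] at h2
  unfold row
  rw [h3]
  exact h1 L1 h2

theorem gd_of_long (hr : 0 < r) (hg : Apx g f) (ha : ∀ c < r, Apx (h c) (j c)) {K N L : ℕ}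
    (hL : Lg (On r g h (pre X L) (BK r K)) (BK r K) N) :
    GdY f j r X (YO (On r g h (pre X L) (BK r K))) K N := by
  intro p ho hp i hi
  have hk : encode p < BK r K := by
    unfold rk at hp
    have h1 : p.2.2 < r ^ K := lt_of_lt_of_le ho (Nat.pow_le_pow_right hr (by omega))
    rw [enc_nd]
    unfold BK
    refine (Nat.pair_lt_pair_left _ (show p.1 < K + 1 by omega)).trans
      (Nat.pair_lt_pair_right _ ?_)
    exact (Nat.pair_lt_pair_left _ (show p.2.1 < K + 1 by omega)).trans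
      (Nat.pair_lt_pair_right _ h1)
  have h2 := hL _ hk
  unfold YO
  rw [On_getD _ hk, dN_enc] at h2 ⊢
  obtain ⟨L', h3⟩ := row_ok (X := X) hr hg ha L p
  rw [h3, length_pre] at h2
  rw [h3]
  exact ext_pre_eq (by omega)

theorem long_exists (hr : 0 < r) (hg : Apx g f) (ha : ∀ c < r, Apx (h c) (j c)) (K N : ℕ) :
    ∃ M, ∀ L ≥ M, Lg (On r g h (pre X L) K) K N := by
  obtain ⟨M, hM⟩ := bdd_lt K (fun k L => N ≤ (row r g h (pre X L) (dN k)).length)
    (fun k _ => row_long hr hg ha (dN k) N)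
  refine ⟨M, fun L hL k hk => ?_⟩
  rw [On_getD _ hk]
  exact hM k hk L hL

/-! Computability. -/

theorem comp_acc (hh : Computable₂ h) : Computable fun x : (List Bool × ℕ × ℕ) × ℕ =>
    acc r h x.1.2.1 x.1.2.2 x.1.1 x.2 := by
  have h0 : Primrec fun w : ((List Bool × ℕ × ℕ) × ℕ) × (ℕ × List Bool) =>
      ((w.1.1.2.2 / r ^ (w.1.1.2.1 - 1 - w.2.1)) % r : ℕ) := by fun_prop
  have h1 : Computable₂ fun (x : (List Bool × ℕ × ℕ) × ℕ) (y : ℕ × List Bool) =>
      h ((x.1.2.2 / r ^ (x.1.2.1 - 1 - y.1)) % r) y.2 :=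
    hh.comp h0.to_comp (Computable.snd.comp Computable.snd)
  have h2 := Computable.nat_rec (f := fun x : (List Bool × ℕ × ℕ) × ℕ => x.2)
    (g := fun x : (List Bool × ℕ × ℕ) × ℕ => x.1.1) Computable.snd
    (Computable.fst.comp Computable.fst) h1
  refine h2.of_eq ?_
  rintro ⟨⟨τ, l, w⟩, n⟩
  induction n with
  | zero => rfl
  | succ n ih =>
    simp only at ih ⊢
    rw [ih]
    rfl

theorem comp_row (cg : Computable g) (hh : Computable₂ h) :
    Computable fun x : List Bool × Nd => row r g h x.1 x.2 := by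
  have h1 : Computable fun x : List Bool × Nd => g^[x.2.1] x.1 :=
    (comp_iter cg).comp (Computable.fst.pair (Computable.fst.comp Computable.snd))
  have h2 : Primrec fun x : List Bool × Nd => x.2.2.1 := by fun_prop
  have h3 : Primrec fun x : List Bool × Nd => x.2.2.2 := by fun_prop
  exact (comp_acc (r := r) hh).comp (((h1.pair (h2.to_comp.pair h3.to_comp))).pair h2.to_comp)

theorem comp_On (cg : Computable g) (hh : Computable₂ h) :
    Computable fun x : List Bool × ℕ => On r g h x.1 x.2 := by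
  have hd : Primrec fun n : ℕ => dN n := by
    unfold dN
    fun_prop
  have ha : Primrec fun y : Tb × List Bool => y.1 ++ [y.2] := by fun_prop
  have h1 : Computable₂ fun (x : List Bool × ℕ) (y : ℕ × Tb) =>
      y.2 ++ [row r g h x.1 (dN y.1)] := by
    have h4 : Computable fun w : (List Bool × ℕ) × (ℕ × Tb) =>
        w.2.2 ++ [row r g h w.1.1 (dN w.2.1)] :=
      ha.to_comp.comp ((Computable.snd.comp Computable.snd).pair ((comp_row cg hh).comp
        ((Computable.fst.comp Computable.fst).pair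
          (hd.to_comp.comp (Computable.fst.comp Computable.snd)))))
    exact h4
  have h2 := Computable.nat_rec (f := fun x : List Bool × ℕ => x.2)
    (g := fun _ => ([] : Tb)) Computable.snd (Computable.const []) h1
  refine h2.of_eq ?_
  rintro ⟨σ, n⟩
  induction n with
  | zero => rfl
  | succ n ih =>
    change _ = On r g h σ n ++ [row r g h σ (dN n)]
    rw [← ih]

theorem pp_Lg {β : Type} [Primcodable β] {O : β → Tb} {K N : β → ℕ} (hO : Primrec O)
    (hK : Primrec K) (hN : Primrec N) : PrimrecPred fun b => Lg (O b) (K b) (N b) := by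
  have h1 : Primrec fun x : β × ℕ => (O x.1).getD x.2 [] := by fun_prop
  exact pp_alllt (by fun_prop) (pp_le (by fun_prop) (pf_length h1))

theorem pf_YO {β : Type} [Primcodable β] {O : β → Tb} {p : β → Nd} {i : β → ℕ} (hO : Primrec O)
    (hp : Primrec p) (hi : Primrec i) : Primrec fun b => YO (O b) (p b) (i b) :=
  pf_ext (pf_getD hO (pf_encode hp)) hi

theorem pf_eY : Primrec fun x : (Tb × List ℕ) × Nd × ℕ => YO x.1.1 x.2.1 x.2.2 :=
  pf_YO (by fun_prop) (by fun_prop) (by fun_prop)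

theorem pp_eV : PrimrecPred fun x : (Tb × List ℕ) × ℕ × Nd × ℕ =>
    VZ (mm x.1.2) x.2.1 x.2.2.1 x.2.2.2 :=
  pp_exlt (by fun_prop) (pp_mem (by fun_prop) (by fun_prop))

@[local fun_prop] theorem pf_kk {β : Type} [Primcodable β] {s : β → ℕ} (hs : Primrec s) :
    Primrec fun b => kk (s b) := by
  unfold kk
  fun_prop

theorem pp_Good {β : Type} [Primcodable β] {O : β → Tb} {T : β → List ℕ} {t : β → ℕ}
    (hO : Primrec O) (hT : Primrec T) (ht : Primrec t) :
    PrimrecPred fun b => Good r (O b) (T b) (t b) := by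
  refine pp_alllt (by fun_prop) (pp_alllt (by fun_prop) (pp_alllt (by fun_prop)
    (pp_alllt (by fun_prop) (pp_imp (pp_le (by fun_prop) (by fun_prop)) (pp_alllt (by fun_prop)
      ?_)))))
  have h1 : PrimrecPred fun x : ((((β × ℕ) × ℕ) × ℕ) × ℕ) × ℕ =>
      mm (T x.1.1.1.1.1) x.1.1.1.1.2 (x.1.1.1.2, x.1.1.2, x.1.2) x.2 :=
    pp_mem (by fun_prop) (by fun_prop)
  have h2 : PrimrecPred fun x : ((((β × ℕ) × ℕ) × ℕ) × ℕ) × ℕ =>
      SN r (YO (O x.1.1.1.1.1)) (VZ (mm (T x.1.1.1.1.1))) x.1.1.1.1.2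
        (x.1.1.1.2, x.1.1.2, x.1.2) x.2 :=
    pp_SN (Y := fun x : Tb × List ℕ => YO x.1) (V := fun x : Tb × List ℕ => VZ (mm x.2)) pf_eY
      pp_eV (a := fun x : ((((β × ℕ) × ℕ) × ℕ) × ℕ) × ℕ => (O x.1.1.1.1.1, T x.1.1.1.1.1))
      (by fun_prop) (by fun_prop) (by fun_prop) (by fun_prop)
  refine ((PrimrecPred.and h1 h2).or (PrimrecPred.and h1.not h2.not)).of_eq fun x => ?_
  tauto

/-- finite conditions on tables -/
theorem si_tab {α : Type} [Primcodable α] (hs : Sec f j r) (hg : Apx g f)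
    (ha : ∀ c < r, Apx (h c) (j c)) (cg : Computable g) (hh : Computable₂ h) (X : R)
    {Rr : α → Prop} {F : Tb → List ℕ → α → Prop} {κ : α → ℕ}
    (hF : PrimrecPred fun x : (Tb × List ℕ) × α => F x.1.1 x.1.2 x.2) (hκ : Primrec κ)
    (hR : ∀ a O T, GdY f j r X (YO O) (KY (κ a)) (κ a) → Good r O T (κ a) →
      (F O T a ↔ Rr a)) : SI X Rr := by
  have hK : Primrec fun x : ℕ => BK r (KY x) := by
    unfold BK KY
    fun_prop
  have hP : S1 fun y : α × List Bool => ∃ T : List ℕ,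
      Lg (On r g h y.2 (BK r (KY (κ y.1)))) (BK r (KY (κ y.1))) (κ y.1) ∧
      Good r (On r g h y.2 (BK r (KY (κ y.1)))) T (κ y.1) ∧
      F (On r g h y.2 (BK r (KY (κ y.1)))) T y.1 := by
    refine S1.ex (p := fun (y : α × List Bool) (T : List ℕ) =>
      Lg (On r g h y.2 (BK r (KY (κ y.1)))) (BK r (KY (κ y.1))) (κ y.1) ∧
      Good r (On r g h y.2 (BK r (KY (κ y.1)))) T (κ y.1) ∧
      F (On r g h y.2 (BK r (KY (κ y.1)))) T y.1) ?_
    have h1 : PrimrecPred fun x : Tb × (α × List ℕ) =>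
        Lg x.1 (BK r (KY (κ x.2.1))) (κ x.2.1) ∧ Good r x.1 x.2.2 (κ x.2.1) ∧ F x.1 x.2.2 x.2.1 :=
      PrimrecPred.and (pp_Lg (by fun_prop) (hK.comp (by fun_prop)) (by fun_prop))
        (PrimrecPred.and (pp_Good (by fun_prop) (by fun_prop) (by fun_prop))
          (hF.comp (p := fun x : (Tb × List ℕ) × α => F x.1.1 x.1.2 x.2)
            (f := fun x : Tb × (α × List ℕ) => ((x.1, x.2.2), x.2.1)) (by fun_prop)))
    have h2 : Computable fun y : (α × List Bool) × List ℕ =>
        ((y.1.2, BK r (KY (κ y.1.1))) : List Bool × ℕ) :=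
      (Computable.snd.comp Computable.fst).pair
        (hK.to_comp.comp (hκ.to_comp.comp (Computable.fst.comp Computable.fst)))
    exact (S1.of_prim h1).comp_computable
      (f := fun y : (α × List Bool) × List ℕ => (On r g h y.1.2 (BK r (KY (κ y.1.1))),
        (y.1.1, y.2)))
      (((comp_On cg hh).comp h2).pair
        ((Computable.fst.comp Computable.fst).pair Computable.snd))
  have h3 : SI X fun a : α => ∃ L, ∃ T : List ℕ,
      Lg (On r g h (pre X L) (BK r (KY (κ a)))) (BK r (KY (κ a))) (κ a) ∧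
      Good r (On r g h (pre X L) (BK r (KY (κ a)))) T (κ a) ∧
      F (On r g h (pre X L) (BK r (KY (κ a)))) T a :=
    SI.ex (p := fun (a : α) (L : ℕ) => ∃ T : List ℕ,
      Lg (On r g h (pre X L) (BK r (KY (κ a)))) (BK r (KY (κ a))) (κ a) ∧
      Good r (On r g h (pre X L) (BK r (KY (κ a)))) T (κ a) ∧
      F (On r g h (pre X L) (BK r (KY (κ a)))) T a) (si_gen hP)
  refine h3.of_eq fun a => ?_
  constructor
  · rintro ⟨L, T, h4, h5, h6⟩
    exact (hR a _ T (gd_of_long hs.pos hg ha h4) h5).1 h6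
  · intro h
    obtain ⟨M, hM⟩ := long_exists (X := X) hs.pos hg ha (BK r (KY (κ a))) (κ a)
    have hgd := gd_of_long hs.pos hg ha (hM M le_rfl)
    obtain ⟨T, hT⟩ := good_ex hs hgd
    exact ⟨M, T, hM M le_rfl, hT, (hR a _ T hgd hT).2 h⟩

end rows

end Pool.Agent.TH769.LH
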